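import Pool.Agent.N762.FP.Itg

/-!
Adjoining one element: a variable or a zero of a member of a family of polynomials, where the
family is closed under derivatives and the coefficients of the characteristic polynomials are
boundary functions.
-/

set_option autoImplicit false
set_option linter.unusedVariables false
set_option linter.unusedSimpArgs false
set_option linter.unusedSectionVars false

universe u

open Polynomial Pool.Agent.W558 Pool.Agent.W498.Tor Pool.Agent.W418.LCI Pool.Agent.N98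
  Pool.Agent.W973.CUT Pool.Agent.W973.CUT2 Pool.Agent.N762.RC

namespace Pool.Agent.N762.FP

section dv

variable {L : Type u} [Field L]

open Classical in
/-- The successive derivatives, as long as the degree is positive. -/
noncomputable def dv (f : L[X]) : ℕ → L[X]
  | 0 => f
  | j + 1 => if 1 ≤ (dv f j).natDegree then derivative (dv f j) else dv f j

lemma dv_mem {Φ : Set L[X]} (hder : ∀ f ∈ Φ, 1 ≤ f.natDegree → derivative f ∈ Φ) {f : L[X]}
    (hf : f ∈ Φ) (j : ℕ) : dv f j ∈ Φ := by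
  induction j with
  | zero => exact hf
  | succ j ih =>
    change (if 1 ≤ (dv f j).natDegree then derivative (dv f j) else dv f j) ∈ Φ
    split_ifs with h
    · exact hder _ ih h
    · exact ih

lemma natDegree_dv (f : L[X]) (j : ℕ) : (dv f j).natDegree ≤ f.natDegree - j := by
  induction j with
  | zero => exact le_rfl
  | succ j ih =>
    change (if 1 ≤ (dv f j).natDegree then derivative (dv f j) else dv f j).natDegree ≤ _
    split_ifs with h
    · have := natDegree_derivative_le (dv f j)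
      omega
    · omega

end dv

/-- **One element.** -/
theorem mod_root {k L K : Type u} [Field k] [Field L] [Field K] [Algebra k L] [Algebra k K]
    [Algebra L K] [IsScalarTower k L K] {P : Set L} (hP : Mod k P) (Δ : ℕ)
    (hΔ : ((Nat.factorial Δ : ℕ) : k) ≠ 0) (Φ : Set L[X]) (h0 : ∀ f ∈ Φ, f ≠ 0)
    (hdeg : ∀ f ∈ Φ, f.natDegree ≤ Δ) (hX : X ∈ Φ)
    (hder : ∀ f ∈ Φ, 1 ≤ f.natDegree → derivative f ∈ Φ)
    (hconst : ∀ f ∈ Φ, f.natDegree = 0 → f.coeff 0 ∈ P)
    (hQ : ∀ f ∈ Φ, ∀ g ∈ Φ, 1 ≤ f.natDegree → ∃ Q : L[X], Q ≠ 0 ∧ Q.natDegree ≤ Δ ∧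
      f ∣ Q.comp g ∧ ∀ n, Q.coeff n ≠ 0 → Q.coeff n ∈ P)
    (z : K) (htop : IntermediateField.adjoin L {z} = ⊤)
    (halt : Transcendental L z ∨ ∃ f ∈ Φ, aeval z f = 0) :
    Mod k (algebraMap L K '' P ∪ {y | ∃ f ∈ Φ, y = aeval z f}) := by
  classical
  intro B _ b hb hb0
  have hc1 : ∀ i : {i : B // b i ∈ algebraMap L K '' P}, ∃ a ∈ P, algebraMap L K a = b i :=
    fun i => i.2
  choose c hcP hbc using hc1
  have hc0 : ∀ i, c i ≠ 0 := by
    intro i h
    apply hb0 i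
    rw [← hbc, h, map_zero]
  have hc2 : ∀ i : {i : B // ∃ f ∈ Φ, b i = aeval z f}, ∃ f ∈ Φ, b i = aeval z f := fun i => i.2
  choose Gf hGΦ hbG using hc2
  -- the family
  obtain ⟨G, hG, hGz⟩ : ∃ G ∈ Φ, Transcendental L z ∨ aeval z G = 0 := by
    rcases halt with h | ⟨f, hf, hfz⟩
    · exact ⟨X, hX, Or.inl h⟩
    · exact ⟨f, hf, Or.inr hfz⟩
  let O := Option (Option {i : B // ∃ f ∈ Φ, b i = aeval z f})
  let F0 : O → L[X] := fun o => o.elim X fun o => o.elim G Gf
  have hF0 : ∀ o, F0 o ∈ Φ := by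
    rintro (_ | _ | i)
    · exact hX
    · exact hG
    · exact hGΦ i
  let BB : Type := O × Fin (Δ + 1)
  let F : BB → L[X] := fun β => dv (F0 β.1) β.2
  have hF : ∀ β, F β ∈ Φ := fun β => dv_mem hder (hF0 β.1) _
  have hFi : ∀ o, F (o, ⟨0, Nat.succ_pos Δ⟩) = F0 o := fun o => rfl
  have hQ' : ∀ β β' : BB, ∃ Q : L[X], 1 ≤ (F β).natDegree → (Q ≠ 0 ∧ Q.natDegree ≤ Δ ∧
      F β ∣ Q.comp (F β') ∧ ∀ n, Q.coeff n ≠ 0 → Q.coeff n ∈ P) := by
    intro β β'
    by_cases h : 1 ≤ (F β).natDegree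
    · obtain ⟨Q, hQ⟩ := hQ _ (hF β) _ (hF β') h
      exact ⟨Q, fun _ => hQ⟩
    · exact ⟨0, fun h' => absurd h' h⟩
  choose Q hQQ using hQ'
  let CC : Type := BB ⊕ (BB × BB × Fin (Δ + 1))
  let W : CC → L := Sum.elim (fun β => (F β).coeff 0) fun q => (Q q.1 q.2.1).coeff q.2.2
  obtain ⟨T, I, hT, hI, M, hFr, hM⟩ := hP ({x : CC // W x ∈ P ∧ W x ≠ 0} ⊕
      {i : B // b i ∈ algebraMap L K '' P}) (Sum.elim (fun x => W x.1) c)
    (by
      rintro (x | i)
      · exact x.2.1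
      · exact hcP i)
    (by
      rintro (x | i)
      · exact x.2.2
      · exact hc0 i)
  have p1' : ∀ {K' : Type u} [Field K'] [Algebra k K'] [Algebra L K'] [IsScalarTower k L K']
      (z' : K') (hz' : Transcendental L z') (htop' : IntermediateField.adjoin L {z'} = ⊤),
      ∃ (T' I' : Type) (_ : Finite T') (_ : Fintype I') (M' : LM (⊥ : Subalgebra k K') ⊤ T' I'),
        Frc M' ∧ (∀ b, IsBr M' (aeval z' (F b))) ∧ (∀ i, IsBr M' (algebraMap L K' (c i))) ∧
        ∀ t', (z' ∈ M'.A t' ∨ z'⁻¹ ∈ M'.A t') ∧ ∀ l : L, ∃ a b : L, algebraMap L K' a ∈ M'.A t' ∧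
          algebraMap L K' b ∈ M'.A t' ∧ b ≠ 0 ∧ l = a * b⁻¹ := by
    intro K' _ _ _ _ z' hz' htop'
    obtain ⟨T', I', h1, h2, M', h3, h4, h5, h6⟩ := p1 M hFr z' hz' htop' Δ hΔ
      (Set.range (Sum.elim (fun x : {x : CC // W x ∈ P ∧ W x ≠ 0} => W x.1) c))
      (by
        rintro _ ⟨i, rfl⟩
        exact hM i) F (fun β => h0 _ (hF β)) (fun β => hdeg _ (hF β))
      (by
        rintro ⟨o, j⟩ hβ
        have h1 : (dv (F0 o) j).natDegree ≤ (F0 o).natDegree - j := natDegree_dv _ _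
        have h2 : 1 ≤ (dv (F0 o) j).natDegree := hβ
        have h3 := hdeg _ (hF0 o)
        have hj : (j : ℕ) + 1 < Δ + 1 := by omega
        refine ⟨(o, ⟨j + 1, hj⟩), ?_⟩
        change (if 1 ≤ (dv (F0 o) j).natDegree then derivative (dv (F0 o) j) else dv (F0 o) j) = _
        rw [if_pos h2])
      ⟨(none, ⟨0, Nat.succ_pos Δ⟩), rfl⟩
      (by
        intro β hβ
        have h1 : (F β).coeff 0 ∈ P := hconst _ (hF β) hβ
        have h2 : (F β).coeff 0 ≠ 0 := by
          intro h2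
          apply h0 _ (hF β)
          rw [eq_C_of_natDegree_eq_zero hβ, h2, map_zero]
        exact ⟨Sum.inl ⟨Sum.inl β, h1, h2⟩, rfl⟩)
      (by
        intro β β' hβ
        obtain ⟨h1, h2, h3, h4⟩ := hQQ β β' hβ
        refine ⟨Q β β', h1, h2, h3, fun n hn => ?_⟩
        have h5 := le_natDegree_of_ne_zero hn
        exact ⟨Sum.inl ⟨Sum.inr (β, β', ⟨n, by omega⟩), h4 n hn, hn⟩, rfl⟩)
    refine ⟨T', I', h1, h2, M', h3, h4, fun i => h5 _ ⟨Sum.inr i, rfl⟩, fun t' => ?_⟩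
    obtain ⟨hz', t, ht⟩ := h6 t'
    refine ⟨hz', fun l => ?_⟩
    obtain ⟨a, ha, b, hb, hb0, hl⟩ := hFr t l
    exact ⟨a, b, ht ⟨a, ha, rfl⟩, ht ⟨b, hb, rfl⟩, hb0, hl⟩
  rcases hGz with hz | hGz
  · obtain ⟨T', I', hT', hI', M', hFr', hMF, hMc, -⟩ := p1' z hz htop
    refine ⟨T', I', hT', hI', M', hFr', fun i => ?_⟩
    rcases hb i with h | h
    · rw [← hbc ⟨i, h⟩]
      exact hMc ⟨i, h⟩
    · rw [hbG ⟨i, h⟩]
      exact hMF (some (some ⟨i, h⟩), ⟨0, Nat.succ_pos Δ⟩)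
  -- the restriction to a zero
  let K' := FractionRing L[X]
  have hs1 : IsScalarTower k L K' := IsScalarTower.of_algebraMap_eq fun r => rfl
  have hs2 : IsScalarTower k L[X] K' := inferInstance
  obtain ⟨T', I', hT', hI', M', hFr', hMF, hMc, hMd⟩ := p1' (K' := K')
    (algebraMap L[X] K' X) fr_tr fr_top
  have hG0 : G ≠ 0 := h0 _ hG
  have halg : IsAlgebraic L z := ⟨G, hG0, hGz⟩
  have hint : IsIntegral L z := halg.isIntegral
  have hf := minpoly.irreducible hint
  let ev0 : L[X] →ₐ[k] K := (aeval z : L[X] →ₐ[L] K).restrictScalars k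
  have hev : ∀ g : L[X], ev0 g = aeval z g := fun _ => rfl
  obtain ⟨Qs, π, hs, hQs, hinv, hg, hun, hrep⟩ := exists_locG ev0
    (fun y => by
      have hy : y ∈ IntermediateField.adjoin L {z} := by rw [htop]; trivial
      exact (IntermediateField.mem_adjoin_simple_iff L y).1 hy)
    (minpoly L z) hf (fun g => (minpoly.dvd_iff (A := L) (x := z)).symm) K'
  have hinj : Function.Injective (algebraMap L[X] K') := IsFractionRing.injective L[X] K'
  have hne' : ∀ g : L[X], g ≠ 0 → algebraMap L[X] K' g ≠ 0 := fun g hg h =>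
    hg (hinj (h.trans (map_zero _).symm))
  have hMf : IsBr M' (algebraMap L[X] K' G) := by
    have := hMF (some none, ⟨0, Nat.succ_pos Δ⟩)
    rw [← fr_aeval]
    exact this
  have hpf : pq π (algebraMap L[X] K' G) = 0 := by
    rw [(hg _).2, hev]
    exact hGz
  have hpu : pq π (algebraMap L[X] K' (minpoly L z)) = 0 := by
    rw [(hg _).2, hev]
    exact minpoly.aeval L z
  have hLp : ∀ l : L, algebraMap L K' l ∈ Qs ∧ pq π (algebraMap L K' l) = algebraMap L K l := by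
    intro l
    have e1 : algebraMap L K' l = algebraMap L[X] K' (Polynomial.C l) := rfl
    rw [e1]
    refine ⟨(hg _).1, ?_⟩
    rw [(hg _).2, hev, aeval_C]
  have hdom : ∀ t, M'.A t ≤ Qs → ∀ q ∈ Qs, ∃ a ∈ M'.A t, ∃ b ∈ M'.A t, pq π b ≠ 0 ∧ q * b = a := by
    intro t ht q hq
    have hprime : (RingHom.ker (gp π ht)).IsPrime := RingHom.ker_isPrime _
    have hmemk : ∀ a : M'.A t, a ∈ RingHom.ker (gp π ht) ↔ pq π a = 0 := by
      intro a
      rw [RingHom.mem_ker]
      have : gp π ht a = pq π a := gp_apply π ht a.2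
      rw [this]
    let W := locAt (M'.A t) (RingHom.ker (gp π ht)) hprime
    have hW : ∀ y, y ∈ W ↔ ∃ a ∈ M'.A t, ∃ b ∈ M'.A t, pq π b ≠ 0 ∧ y * b = a := by
      intro y
      constructor
      · rintro ⟨a, b, hb, hab⟩
        exact ⟨a, a.2, b, b.2, fun h => hb ((hmemk b).2 h), hab⟩
      · rintro ⟨a, ha, b, hb, hb0, hab⟩
        exact ⟨⟨a, ha⟩, ⟨b, hb⟩, fun h => hb0 ((hmemk _).1 h), hab⟩
    obtain ⟨hd2, hd1⟩ := hMd t
    have hAW : M'.A t ≤ W := le_locAt
    have hWinv : ∀ b ∈ M'.A t, pq π b ≠ 0 → b⁻¹ ∈ W := fun b hb hb0 =>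
      inv_mem_locAt (b := (⟨b, hb⟩ : M'.A t)) fun h => hb0 ((hmemk _).1 h)
    -- constants
    have hWE : ∀ l : L, algebraMap L K' l ∈ W := by
      intro l
      obtain ⟨a, b, ha, hb, hb0, he⟩ := hd1 l
      have hbπ : pq π (algebraMap L K' b) ≠ 0 := by
        rw [(hLp b).2]
        exact (_root_.map_ne_zero _).2 hb0
      rw [he, map_mul, map_inv₀]
      exact W.mul_mem (hAW ha) (hWinv _ hb hbπ)
    -- the variable
    have hWX : algebraMap L[X] K' X ∈ W := by
      rcases hd2 with h | h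
      · exact hAW h
      · have h1 : algebraMap L[X] K' X ≠ 0 := hne' _ X_ne_zero
        have h2 : pq π (algebraMap L[X] K' X)⁻¹ ≠ 0 := by
          refine pq_ne π (inv_ne_zero h1) (ht h) ?_
          rw [inv_inv]
          exact (hg _).1
        have h3 := hWinv _ h h2
        rwa [inv_inv] at h3
    have hWR : ∀ r : L[X], algebraMap L[X] K' r ∈ W := by
      intro r
      induction r using Polynomial.induction_on with
      | C a => exact hWE a
      | add p q hp hq => rw [map_add]; exact W.add_mem hp hq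
      | monomial n a ih =>
        rw [pow_succ, ← mul_assoc, map_mul]
        exact W.mul_mem ih hWX
    obtain ⟨r, s, hs', hrs⟩ := hrep q hq
    have hsW : (algebraMap L[X] K' s)⁻¹ ∈ W := by
      obtain ⟨a, ha, b, hb, hb0, hab⟩ := (hW _).1 (hWR s)
      have hb1 : b ≠ 0 := by
        rintro rfl
        exact hb0 (pq_zero π)
      have ha0 : pq π a ≠ 0 := by
        rw [← hab, pq_mul π (hg s).1 (ht hb), (hg s).2]
        exact mul_ne_zero hs' hb0
      have e : (algebraMap L[X] K' s)⁻¹ = b * a⁻¹ := by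
        rw [← hab, mul_inv, mul_comm, mul_assoc, inv_mul_cancel₀ hb1, mul_one]
      rw [e]
      exact W.mul_mem (hAW hb) (hWinv a ha ha0)
    rw [← hW]
    have hs0 : algebraMap L[X] K' s ≠ 0 := by
      apply hne'
      rintro rfl
      exact hs' (map_zero _)
    have e : q = algebraMap L[X] K' r * (algebraMap L[X] K' s)⁻¹ := by
      rw [← hrs, mul_assoc, mul_inv_cancel₀ hs0, mul_one]
    rw [e]
    exact W.mul_mem (hWR r) hsW
  obtain ⟨T'', I'', hT'', hI'', M'', hFr'', hM''⟩ := cut' π hs hQs hinv (algebraMap L[X] K' G)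
    (hg _).1 (hne' _ hG0) hpf (algebraMap L[X] K' (minpoly L z)) (hg _).1
    (hne' _ (minpoly.ne_zero hint)) hpu hun M' hMf hdom
  refine ⟨T'', I'', hT'', hI'', M'', hFr'', fun i => ?_⟩
  rcases hb i with h | h
  · rw [← hbc ⟨i, h⟩]
    have h2 := hM'' _ (hLp (c ⟨i, h⟩)).1 (by
      rw [(hLp (c ⟨i, h⟩)).2]
      exact (_root_.map_ne_zero _).2 (hc0 ⟨i, h⟩)) (hMc ⟨i, h⟩)
    rwa [(hLp (c ⟨i, h⟩)).2] at h2
  · have h1 : IsBr M' (algebraMap L[X] K' (Gf ⟨i, h⟩)) := by
      have := hMF (some (some ⟨i, h⟩), ⟨0, Nat.succ_pos Δ⟩)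
      rw [← fr_aeval]
      exact this
    have h2 := hM'' _ (hg _).1 (by
      rw [(hg _).2, hev, ← hbG ⟨i, h⟩]
      exact hb0 i) h1
    rwa [(hg _).2, hev, ← hbG ⟨i, h⟩] at h2

end Pool.Agent.N762.FP
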