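import Pool.Agent.N762.FP.Prod

/-!
The operations on the sets of elements which are boundary functions on models.
-/

set_option autoImplicit false
set_option linter.unusedVariables false
set_option linter.unusedSimpArgs false
set_option linter.unusedSectionVars false

universe u

open MvPolynomial Pool.Agent.W558 Pool.Agent.W498.Tor Pool.Agent.W418.LCI Pool.Agent.N98
  Pool.Agent.N762.RC Pool.Agent.N762.RC2

namespace Pool.Agent.N762.FP

/-- There are models on which finite families of nonzero elements of `P` are boundary functions. -/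
def Mod (k : Type u) {K : Type u} [Field k] [Field K] [Algebra k K] (P : Set K) : Prop :=
  ∀ (B : Type) [Finite B] (b : B → K), (∀ i, b i ∈ P) → (∀ i, b i ≠ 0) →
    ∃ (T I : Type) (_ : Finite T) (_ : Fintype I) (M : LM (⊥ : Subalgebra k K) ⊤ T I),
      Frc M ∧ ∀ i, IsBr M (b i)

/-- Fields with log smooth models. -/
theorem mod_base {k E : Type u} [Field k] [Field E] [Algebra k E] (hE : HasLM k E) :
    Mod k (Set.univ : Set E) := by
  intro B _ b _ hb
  have := Fintype.ofFinite B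
  obtain ⟨T, I, hT, hI, M, Γ, hF, hfr⟩ := hE B b hb
  exact ⟨T, I, hT, hI, M, hfr, fun i => IsB.br ⟨Γ i, fun t => hF i t⟩⟩

/-- Products. -/
theorem mod_prod {k K1 K2 K : Type u} [Field k] [Field K1] [Field K2] [Field K] [Algebra k K1]
    [Algebra k K2] [Algebra k K] (ι₁ : K1 →ₐ[k] K) (ι₂ : K2 →ₐ[k] K)
    (hinj : Function.Injective (Algebra.TensorProduct.productMap ι₁ ι₂))
    (htop : IntermediateField.adjoin k (Set.range ι₁ ∪ Set.range ι₂) = ⊤)
    {P1 : Set K1} {P2 : Set K2} (h1 : Mod k P1) (h2 : Mod k P2) :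
    Mod k (ι₁ '' P1 ∪ ι₂ '' P2) := by
  classical
  intro B _ b hb hb0
  have hc1 : ∀ i : {i : B // b i ∈ ι₁ '' P1}, ∃ a ∈ P1, ι₁ a = b i := fun i => i.2
  have hc2 : ∀ i : {i : B // b i ∈ ι₂ '' P2}, ∃ a ∈ P2, ι₂ a = b i := fun i => i.2
  choose a1 ha1 hb1 using hc1
  choose a2 ha2 hb2 using hc2
  obtain ⟨T1, I1, hT1, hI1, M1, hFr1, hM1⟩ := h1 _ a1 ha1 (fun i h => hb0 i (by
    rw [← hb1, h, map_zero]))
  obtain ⟨T2, I2, hT2, hI2, M2, hFr2, hM2⟩ := h2 _ a2 ha2 (fun i h => hb0 i (by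
    rw [← hb2, h, map_zero]))
  refine ⟨T1 × T2, I1 ⊕ I2, inferInstance, inferInstance, pLM ι₁ ι₂ hinj M1 M2,
    frc_pLM ι₁ ι₂ hinj M1 M2 htop hFr1 hFr2, fun i => ?_⟩
  rcases hb i with h | h
  · rw [← hb1 ⟨i, h⟩]
    exact isBr_pLM1 ι₁ ι₂ hinj M1 M2 (hM1 _)
  · rw [← hb2 ⟨i, h⟩]
    exact isBr_pLM2 ι₁ ι₂ hinj M1 M2 (hM2 _)

/-- Constants. -/
lemma isBr_const {k K : Type u} [Field k] [Field K] [Algebra k K] {T I : Type} [Fintype I]
    (M : LM (⊥ : Subalgebra k K) ⊤ T I) (c : k) (hc : c ≠ 0) : IsBr M (algebraMap k K c) := by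
  refine IsB.br ⟨0, fun t => ⟨algebraMap k K c, (_root_.map_ne_zero _).2 hc,
    Subalgebra.algebraMap_mem _ _, ?_, ?_⟩⟩
  · rw [← map_inv₀]
    exact Subalgebra.algebraMap_mem _ _
  · simp

/-- Products and roots. -/
theorem mod_sat {k K : Type u} [Field k] [Field K] [Algebra k K] {P Q : Set K} (hP : Mod k P)
    (hQ : ∀ z ∈ Q, z ≠ 0 → ∃ (n : ℕ), n ≠ 0 ∧ ∃ (c : k) (l : ℕ) (a : Fin l → K) (e : Fin l → ℤ),
      (∀ i, a i ∈ P) ∧ z ^ n = algebraMap k K c * ∏ i, a i ^ e i) : Mod k Q := by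
  classical
  intro B _ b hb hb0
  choose n hn c l a e ha hz using fun i => hQ (b i) (hb i) (hb0 i)
  obtain ⟨T, I, hT, hI, M, hFr, hM⟩ := hP {t : Σ i, Fin (l i) // a t.1 t.2 ≠ 0}
    (fun t => a t.1.1 t.1.2) (fun t => ha _ _) (fun t => t.2)
  refine ⟨T, I, hT, hI, M, hFr, fun i => isBr_of_pow hFr (hn i) ?_⟩
  have h0 : algebraMap k K (c i) * ∏ j, a i j ^ e i j ≠ 0 := by
    rw [← hz]
    exact pow_ne_zero _ (hb0 i)
  rw [hz]
  have hc0 : c i ≠ 0 := by
    intro h
    apply h0
    rw [h, map_zero, zero_mul]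
  refine (isBr_const M (c i) hc0).mul (IsBr.prod _ _ fun j _ => ?_)
  by_cases h : a i j = 0
  · have h1 : e i j = 0 := by
      by_contra h2
      apply h0
      rw [Finset.prod_eq_zero (Finset.mem_univ j), mul_zero]
      rw [h, zero_zpow _ h2]
    rw [h1, zpow_zero]
    exact IsB.one.br
  · exact (hM ⟨⟨i, j⟩, h⟩).zpow _

/-- Fields with log smooth models for the finite families of elements of a set. -/
theorem mod_models {k E : Type u} [Field k] [Field E] [Algebra k E] {P : Set E}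
    (hE : ∀ (m : ℕ) (g : Fin m → E), (∀ b, g b ∈ P) → (∀ b, g b ≠ 0) →
      ∃ (N L : ℕ) (H : Fin (N + 1) → E) (x : Fin (N + 1) → Fin L → E)
        (Γ : Fin m → Fin L → ℤ), IsLogModel (k := k) g H x Γ) : Mod k P := by
  intro B _ b hb hb0
  have := Fintype.ofFinite B
  let q := Fintype.equivFin B
  obtain ⟨N, L, HH, x, Γ, h1⟩ := hE (Fintype.card B) (b ∘ q.symm) (fun b => hb _) (fun b => hb0 _)
  obtain ⟨M, hF, hfr⟩ := h1.exists_LM
  refine ⟨Fin (N + 1), Fin L, inferInstance, inferInstance, M, hfr, fun i => ?_⟩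
  refine IsB.br ⟨Γ (q i), fun t => ?_⟩
  obtain ⟨w, hw⟩ := hF (q i) t
  refine ⟨w, ?_⟩
  simpa using hw

/-- Radical extensions. -/
theorem mod_rad (p : ℕ) [Fact p.Prime] {k L K : Type u} [Field k] [CharP k p] [Field L] [Field K]
    [Algebra k L] [Algebra L K] [Algebra k K] [IsScalarTower k L K] {P : Set L} (hP : Mod k P)
    {g : ℕ} (w : Fin g → K) (hw0 : ∀ j, w j ≠ 0) (n : Fin g → ℕ) (hn : ∀ j, ¬ p ∣ n j)
    (hw : ∀ j, ∃ z ∈ P, w j ^ n j = algebraMap L K z)
    (hgen : IntermediateField.adjoin L (Set.range w) = ⊤) :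
    Mod k (algebraMap L K '' P ∪ Set.range w) := by
  classical
  intro B _ b hb hb0
  choose z hz hwz using hw
  have hc1 : ∀ i : {i : B // b i ∈ algebraMap L K '' P}, ∃ a ∈ P, algebraMap L K a = b i :=
    fun i => i.2
  choose a ha hba using hc1
  have hz0 : ∀ j, z j ≠ 0 := by
    intro j h
    apply pow_ne_zero (n j) (hw0 j)
    rw [hwz, h, map_zero]
  have hf1 := Fintype.ofFinite {i : B // b i ∈ algebraMap L K '' P}
  let c : {i : B // b i ∈ algebraMap L K '' P} ⊕ Fin g → L := Sum.elim a z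
  obtain ⟨T, I, hT, hI, M, hFr, hM⟩ := hP ({i : B // b i ∈ algebraMap L K '' P} ⊕ Fin g) c
    (by
      rintro (i | i)
      · exact ha i
      · exact hz i)
    (by
      rintro (i | i)
      · intro h
        apply hb0 i
        rw [← hba]
        change algebraMap L K (c (Sum.inl i)) = 0
        rw [h, map_zero]
      · exact hz0 i)
  obtain ⟨T', I', hT', hI', M', hFr', hM1, hM2⟩ := kummer_isBr p M hFr c hM w hw0 n
    (fun j h => hn j ((CharP.cast_eq_zero_iff k p _).1 h))
    (fun j => Pi.single (Sum.inr j) 1) (fun j => by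
      rw [Finset.prod_eq_single (Sum.inr j)]
      · rw [Pi.single_eq_same, zpow_one, hwz]
        rfl
      · intro l _ hl
        rw [Pi.single_eq_of_ne hl, zpow_zero]
      · intro h
        exact absurd (Finset.mem_univ _) h) hgen
  refine ⟨T', I', hT', hI', M', hFr', fun i => ?_⟩
  rcases hb i with h | ⟨j, hj⟩
  · rw [← hba ⟨i, h⟩]
    exact hM1 (Sum.inl ⟨i, h⟩)
  · rw [← hj]
    exact hM2 j

/-- **Families of bounded degree.** -/
theorem mod_fam (p : ℕ) [Fact p.Prime] {k F E L K : Type u} [Field k] [CharP k p] [Field F]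
    [Field E] [Field L] [Field K] [Algebra k L] [Algebra E L] [Algebra L K] [Algebra E K]
    [IsScalarTower E L K] [Algebra k K] [IsScalarTower k L K] [Algebra F E]
    [Algebra.IsAlgebraic F E] [Algebra F K] [IsScalarTower F E K] {P : Set L} (hP : Mod k P)
    (hE : ∀ a : E, algebraMap E L a ∈ P) {N : ℕ} (y : Fin N → K) (m : Fin N → ℕ) (e : ℕ)
    (hm : ∀ i, ¬ p ^ (e + 1) ∣ m i) (hF : ∀ a : F, ∃ b : E, b ^ p ^ e = algebraMap F E a)
    (htop : IntermediateField.adjoin L (Set.range y) = ⊤) (d δ C0 : ℕ)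
    (htr : Algebra.trdeg F (IntermediateField.adjoin F (Set.range fun j => y j ^ m j)) = d)
    (htrL : Algebra.trdeg L K = d)
    (hδ : ∀ t : ℕ, d.factorial * Module.finrank F (img F (fun j => y j ^ m j) t) ≤
      δ * (t + C0) ^ d) (s : ℕ) (hs : 1 ≤ s)
    (hD : (Infinite F ∧ ((Nat.factorial ((s * δ) ^ 2 ^ d) : ℕ) : k) ≠ 0) ∨
      ((Nat.factorial ((max s δ) ^ 2 ^ (N - 1)) : ℕ) : k) ≠ 0) :
    Mod k (algebraMap L K '' P ∪ (Set.range y ∪ {z | ∃ G : MvPolynomial (Fin N) F,
      G.totalDegree ≤ s ∧ z = aeval (fun j => y j ^ m j) G})) := by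
  classical
  have hLp : CharP L p := charP_of_injective_algebraMap (algebraMap k L).injective p
  have hEp : CharP E p := (RingHom.charP_iff _ (algebraMap E L).injective p).2 hLp
  have hp0 : p ≠ 0 := (Fact.out : p.Prime).ne_zero
  obtain ⟨ρ, hρ⟩ := exists_rho p e hF
  intro B _ b hb hb0
  -- the elements of `L`
  have hc1 : ∀ i : {i : B // b i ∈ algebraMap L K '' P}, ∃ a ∈ P, algebraMap L K a = b i :=
    fun i => i.2
  choose c hcP hbc using hc1
  have hc0 : ∀ i, c i ≠ 0 := by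
    intro i h
    apply hb0 i
    rw [← hbc, h, map_zero]
  -- the polynomials
  have hc2 : ∀ i : {i : B // ∃ G : MvPolynomial (Fin N) F,
      G.totalDegree ≤ s ∧ b i = aeval (fun j => y j ^ m j) G}, ∃ G : MvPolynomial (Fin N) F,
      G.totalDegree ≤ s ∧ b i = aeval (fun j => y j ^ m j) G := fun i => i.2
  choose G hGs hbG using hc2
  have hG0 : ∀ i, aeval (fun j => y j ^ m j) (G i) ≠ 0 := by
    intro i
    rw [← hbG]
    exact hb0 i
  have hbase : Base k E L _ c := by
    intro B1 _ b1 hb1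
    obtain ⟨T, I, hT, hI, M, hFr, hM⟩ := hP (B1 ⊕ {i : B // b i ∈ algebraMap L K '' P})
      (Sum.elim (fun i => algebraMap E L (b1 i)) c)
      (by
        rintro (i | i)
        · exact hE _
        · exact hcP i)
      (by
        rintro (i | i)
        · exact (_root_.map_ne_zero _).2 (hb1 i)
        · exact hc0 i)
    exact ⟨T, I, hT, hI, M, hFr, fun i => hM (Sum.inl i), fun i => hM (Sum.inr i)⟩
  -- the exponents
  have hm0 : ∀ i, m i ≠ 0 := by
    intro i h
    apply hm i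
    rw [h]
    exact dvd_zero _
  have hfac : ∀ i, ∃ e' n', ¬ p ∣ n' ∧ m i = p ^ e' * n' := fun i =>
    Nat.exists_eq_pow_mul_and_not_dvd (hm0 i) p (Fact.out : p.Prime).ne_one
  choose ε n hn hmn using hfac
  have hε : ∀ i, ε i ≤ e := by
    intro i
    by_contra h
    apply hm i
    rw [hmn i]
    exact Dvd.dvd.mul_right (pow_dvd_pow p (by omega)) _
  have hn0 : ∀ i, n i ≠ 0 := by
    intro i h
    apply hn i
    rw [h]
    exact dvd_zero _
  let z : Fin N → K := fun i => y i ^ n i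
  have hzm : ∀ i, z i ^ p ^ ε i = y i ^ m i := by
    intro i
    change (y i ^ n i) ^ p ^ ε i = y i ^ m i
    rw [← pow_mul, hmn i, mul_comm]
  let K1 : IntermediateField L K := IntermediateField.adjoin L (Set.range z)
  have hz : ∀ i, z i ∈ K1 := fun i => IntermediateField.subset_adjoin _ _ ⟨i, rfl⟩
  let z1 : Fin N → K1 := fun i => ⟨z i, hz i⟩
  have htop1 : IntermediateField.adjoin L (Set.range z1) = ⊤ := by
    apply IntermediateField.lift_injective K1
    rw [adjoin_val, IntermediateField.lift_top]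
  obtain ⟨htop', halg⟩ := alg_of_pow2 y htop K1 n hn0 hz
  let _ : Algebra F L := ((algebraMap E L).comp (algebraMap F E)).toAlgebra
  have ht1 : IsScalarTower F E L := IsScalarTower.of_algebraMap_eq fun r => rfl
  have ht2 : IsScalarTower F L K := IsScalarTower.of_algebraMap_eq fun r => by
    rw [IsScalarTower.algebraMap_apply F E K, IsScalarTower.algebraMap_apply E L K]
    rfl
  have hs1 : IsScalarTower F K1 K := IsScalarTower.of_algebraMap_eq fun r => rfl
  have hs2 : IsScalarTower k K1 K := IsScalarTower.of_algebraMap_eq fun r => rfl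
  have hs3 : IsScalarTower k L K1 := IsScalarTower.of_algebraMap_eq fun r =>
    Subtype.ext (IsScalarTower.algebraMap_apply k L K r)
  have hs4 : IsScalarTower E L K1 := IsScalarTower.of_algebraMap_eq fun r =>
    Subtype.ext (IsScalarTower.algebraMap_apply E L K r)
  have hs5 : IsScalarTower E K1 K := IsScalarTower.of_algebraMap_eq fun r => rfl
  have hs6 : IsScalarTower F E K1 := IsScalarTower.of_algebraMap_eq fun r =>
    Subtype.ext (IsScalarTower.algebraMap_apply F E K r)
  have htrL1 : Algebra.trdeg L K1 = d := by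
    have h1 : Algebra.trdeg L K1 + Algebra.trdeg K1 K = Algebra.trdeg L K := trdeg_add_eq L K1
    have h2 : Algebra.trdeg K1 K = 0 := trdeg_eq_zero
    rw [← htrL, ← h1, h2, add_zero]
  have hzf : (fun j => z j ^ p ^ ε j) = fun j => y j ^ m j := funext hzm
  have htr1 : Algebra.trdeg E (IntermediateField.adjoin E (Set.range z1)) = d := by
    rw [trdeg_hom ((K1.val : K1 →ₐ[L] K).restrictScalars E) z1]
    refine trdeg_roots (F := F) z (fun j => p ^ ε j) (fun j => pow_ne_zero _ hp0) d ?_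
    rw [hzf]
    exact htr
  have hδ1 : ∀ t : ℕ, d.factorial * Module.finrank F (img F (fun j => z1 j ^ p ^ ε j) t) ≤
      δ * (t + C0) ^ d := by
    intro t
    rw [finrank_img_val' K1]
    have h1 : (fun j => ((z1 j ^ p ^ ε j : K1) : K)) = fun j => y j ^ m j := hzf
    rw [h1]
    exact hδ t
  have hval : ∀ g : MvPolynomial (Fin N) F,
      algebraMap K1 K (aeval (fun j => z1 j ^ p ^ ε j) g) = aeval (fun j => y j ^ m j) g := by
    intro g
    rw [← hzf]
    exact aeval_val K1 (fun j => z1 j ^ p ^ ε j) g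
  obtain ⟨T, I, hT, hI, M, hFr, hMG, -, hMc, hMz⟩ := good_step p (K := K1) c hc0 hbase z1 ε e hε ρ
    hρ htop1 d δ C0 htr1 htrL1 hδ1 s hs hD _ G
    (fun i h => hG0 i (by rw [← hval, h, map_zero])) hGs Empty (fun i => i.elim)
    (fun i => i.elim)
  -- the tame radicals
  let J := {i : Fin N // y i ≠ 0}
  let eq : Fin (Fintype.card J) ≃ J := (Fintype.equivFin J).symm
  have hf1 := Fintype.ofFinite {i : B // b i ∈ algebraMap L K '' P}
  have hf2 := Fintype.ofFinite {i : B // ∃ G : MvPolynomial (Fin N) F,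
      G.totalDegree ≤ s ∧ b i = aeval (fun j => y j ^ m j) G}
  let g : ({i : B // b i ∈ algebraMap L K '' P} ⊕ {i : B // ∃ G : MvPolynomial (Fin N) F,
      G.totalDegree ≤ s ∧ b i = aeval (fun j => y j ^ m j) G}) ⊕ J → K1 := Sum.elim
    (Sum.elim (fun i => algebraMap L K1 (c i)) fun i => aeval (fun j => z1 j ^ p ^ ε j) (G i))
    fun i => z1 i
  have hg : ∀ b, IsBr M (g b) := by
    rintro ((i | i) | i)
    · exact hMc i
    · exact hMG i
    · refine hMz i.1 fun h => ?_
      apply pow_ne_zero (n i.1) i.2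
      exact congrArg Subtype.val h
  have hgen : IntermediateField.adjoin K1 (Set.range fun j => y (eq j)) = ⊤ := by
    rw [eq_top_iff, ← htop', IntermediateField.adjoin_le_iff]
    rintro _ ⟨i, rfl⟩
    by_cases h : y i = 0
    · rw [h]
      exact zero_mem _
    · refine IntermediateField.subset_adjoin K1 _ ⟨eq.symm ⟨i, h⟩, ?_⟩
      change y (eq (eq.symm ⟨i, h⟩)) = y i
      rw [Equiv.apply_symm_apply]
  obtain ⟨T', I', hT', hI', M', hFr', hM1, hM2⟩ := kummer_isBr p M hFr g hg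
    (fun j => y (eq j)) (fun j => (eq j).2) (fun j => n (eq j))
    (fun j h => hn (eq j) ((CharP.cast_eq_zero_iff k p _).1 h))
    (fun j => Pi.single (Sum.inr (eq j)) 1) (fun j => by
      rw [Finset.prod_eq_single (Sum.inr (eq j))]
      · rw [Pi.single_eq_same, zpow_one]
        rfl
      · intro l _ hl
        rw [Pi.single_eq_of_ne hl, zpow_zero]
      · intro h
        exact absurd (Finset.mem_univ _) h) hgen
  refine ⟨T', I', hT', hI', M', hFr', fun i => ?_⟩
  rcases hb i with h | ⟨j, hj⟩ | h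
  · rw [← hbc ⟨i, h⟩]
    exact hM1 (Sum.inl (Sum.inl ⟨i, h⟩))
  · have hj0 : y j ≠ 0 := by
      rw [hj]
      exact hb0 i
    have h1 := hM2 (eq.symm ⟨j, hj0⟩)
    rw [Equiv.apply_symm_apply] at h1
    rw [← hj]
    exact h1
  · rw [hbG ⟨i, h⟩, ← hval]
    exact hM1 (Sum.inl (Sum.inr ⟨i, h⟩))

end Pool.Agent.N762.FP
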