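import Pool.Agent.N762.FP.Iter

/-!
Models of tame radical extensions of the fields generated by several families: the inverse images of
varieties of bounded degree under the maps which raise the coordinates to arbitrary powers.
-/

set_option autoImplicit false
set_option linter.unusedVariables false
set_option linter.unusedSimpArgs false
set_option linter.unusedSectionVars false

universe u

open MvPolynomial Pool.Agent.W558 Pool.Agent.W498.Tor Pool.Agent.W418.LCI Pool.Agent.N98
  Pool.Agent.N762.RC Pool.Agent.N762.RC2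

namespace Pool.Agent.N762.FP

section prep

lemma alg_of_pow2 {k K : Type u} [Field k] [Field K] [Algebra k K] {τ : Type*} (y : τ → K)
    (htop : IntermediateField.adjoin k (Set.range y) = ⊤)
    (K1 : IntermediateField k K) (n : τ → ℕ) (hn : ∀ i, n i ≠ 0) (h : ∀ i, y i ^ n i ∈ K1) :
    IntermediateField.adjoin K1 (Set.range y) = ⊤ ∧ Algebra.IsAlgebraic K1 K := by
  have htop' : IntermediateField.adjoin K1 (Set.range y) = ⊤ := by
    rw [eq_top_iff]
    intro z _
    have h1 : z ∈ IntermediateField.adjoin k (Set.range y) := by rw [htop]; trivial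
    have h2 : IntermediateField.adjoin k (Set.range y) ≤
        (IntermediateField.adjoin K1 (Set.range y)).restrictScalars k := by
      rw [IntermediateField.adjoin_le_iff]
      intro z hz
      exact IntermediateField.subset_adjoin K1 _ hz
    exact h2 h1
  refine ⟨htop', ?_⟩
  have h1 : Algebra.IsAlgebraic K1 (IntermediateField.adjoin K1 (Set.range y)) := by
    apply IntermediateField.isAlgebraic_adjoin
    rintro _ ⟨i, rfl⟩
    refine IsIntegral.of_pow (Nat.pos_of_ne_zero (hn i)) ?_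
    have h3 : y i ^ n i = algebraMap K1 K ⟨y i ^ n i, h i⟩ := rfl
    rw [h3]
    exact isIntegral_algebraMap
  refine ⟨fun z => ?_⟩
  have hz : z ∈ IntermediateField.adjoin K1 (Set.range y) := by
    rw [htop']
    trivial
  exact (h1.isAlgebraic ⟨z, hz⟩).algHom (IntermediateField.val _)

/-- The transcendence degree of a generated field does not depend on the field which contains the
generators. -/
lemma trdeg_hom {F A B : Type u} [Field F] [Field A] [Field B] [Algebra F A] [Algebra F B]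
    (f : A →ₐ[F] B) {τ : Type*} (w : τ → A) :
    Algebra.trdeg F (IntermediateField.adjoin F (Set.range w)) =
      Algebra.trdeg F (IntermediateField.adjoin F (Set.range fun i => f (w i))) := by
  have h1 : (IntermediateField.adjoin F (Set.range w)).map f =
      IntermediateField.adjoin F (Set.range fun i => f (w i)) := by
    rw [IntermediateField.adjoin_map, ← Set.range_comp]
    rfl
  rw [← h1]
  exact (IntermediateField.equivMap (IntermediateField.adjoin F (Set.range w)) f).trdeg_eq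

/-- The transcendence degree of the field generated over `E` by the roots. -/
lemma trdeg_roots {F E K : Type u} [Field F] [Field E] [Field K] [Algebra F E] [Algebra E K]
    [Algebra F K] [IsScalarTower F E K] [Algebra.IsAlgebraic F E] {N : ℕ} (z : Fin N → K)
    (n : Fin N → ℕ) (hn : ∀ i, n i ≠ 0) (d : ℕ)
    (hd : Algebra.trdeg F (IntermediateField.adjoin F (Set.range fun i => z i ^ n i)) = d) :
    Algebra.trdeg E (IntermediateField.adjoin E (Set.range z)) = d := by
  let K1 : IntermediateField E K := IntermediateField.adjoin E (Set.range z)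
  have hz : ∀ i, z i ∈ K1 := fun i => IntermediateField.subset_adjoin _ _ ⟨i, rfl⟩
  let z1 : Fin N → K1 := fun i => ⟨z i, hz i⟩
  have hs4 : IsScalarTower F E K1 := IsScalarTower.of_algebraMap_eq fun r =>
    Subtype.ext (IsScalarTower.algebraMap_apply F E K r)
  have htop1 : IntermediateField.adjoin E (Set.range z1) = ⊤ := by
    apply IntermediateField.lift_injective K1
    rw [IntermediateField.lift_adjoin, IntermediateField.lift_top, ← Set.range_comp]
    rfl
  have h1 : Algebra.trdeg F K1 = d := by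
    refine trdeg_of_pow z1 htop1 n hn d ?_
    rw [trdeg_hom ((K1.val : K1 →ₐ[E] K).restrictScalars F) fun i => z1 i ^ n i]
    exact hd
  have h2 : Algebra.trdeg F E + Algebra.trdeg E K1 = Algebra.trdeg F K1 := trdeg_add_eq F E
  have h3 : Algebra.trdeg F E = 0 := trdeg_eq_zero
  rw [h3, zero_add, h1] at h2
  exact h2

end prep

section main

/-- **Arbitrary powers of the coordinates**, several families. -/
theorem fall_models (p : ℕ) [Fact p.Prime] {k E K : Type u} [Field k] [CharP k p]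
    [Field E] [Field K] [Algebra k E] [Algebra E K] [Algebra k K] [IsScalarTower k E K]
    (hE : HasLM k E)
    {h : ℕ} (F : Fin h → Type u) [∀ i, Field (F i)] [∀ i, Algebra (F i) E]
    [∀ i, Algebra.IsAlgebraic (F i) E] [∀ i, Algebra (F i) K] [∀ i, IsScalarTower (F i) E K]
    {N : Fin h → ℕ} (y : (i : Fin h) → Fin (N i) → K) (m : (i : Fin h) → Fin (N i) → ℕ)
    (e : Fin h → ℕ) (hm : ∀ i j, ¬ p ^ (e i + 1) ∣ m i j)
    (ρ : (i : Fin h) → F i →+* E) (hρ : ∀ i a, (ρ i a) ^ p ^ e i = algebraMap (F i) E a)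
    (htop : IntermediateField.adjoin E (Set.range fun ij : Σ i, Fin (N i) => y ij.1 ij.2) = ⊤)
    (d δ C0 s : Fin h → ℕ)
    (htr : ∀ i, Algebra.trdeg (F i) (IntermediateField.adjoin (F i)
      (Set.range fun j => y i j ^ m i j)) = d i)
    (hsum : Algebra.trdeg E K = ((∑ i, d i : ℕ) : Cardinal))
    (hδ : ∀ i, ∀ t : ℕ, (d i).factorial *
      Module.finrank (F i) (img (F i) (fun j => y i j ^ m i j) t) ≤ δ i * (t + C0 i) ^ d i)
    (hs : ∀ i, 1 ≤ s i)
    (hD : ∀ i, (Infinite (F i) ∧ ((Nat.factorial ((s i * δ i) ^ 2 ^ d i) : ℕ) : k) ≠ 0) ∨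
      ((Nat.factorial ((max (s i) (δ i)) ^ 2 ^ (N i - 1)) : ℕ) : k) ≠ 0)
    (B : Fin h → Type) [∀ i, Finite (B i)]
    (G : (i : Fin h) → B i → MvPolynomial (Fin (N i)) (F i))
    (hG : ∀ i b, aeval (fun j => y i j ^ m i j) (G i b) ≠ 0)
    (hdeg : ∀ i b, (G i b).totalDegree ≤ s i)
    (C' : Type) [Finite C'] (c : C' → E) (hc : ∀ i, c i ≠ 0) :
    ∃ (T I : Type) (_ : Finite T) (_ : Fintype I) (M : LM (⊥ : Subalgebra k K) ⊤ T I),
      Frc M ∧ (∀ i b, IsBr M (aeval (fun j => y i j ^ m i j) (G i b))) ∧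
      (∀ i, IsBr M (algebraMap E K (c i))) ∧ ∀ i j, y i j ≠ 0 → IsBr M (y i j) := by
  classical
  have := fun i => Fintype.ofFinite (B i)
  have := Fintype.ofFinite C'
  have hEp : CharP E p := charP_of_injective_algebraMap (algebraMap k E).injective p
  have hp0 : p ≠ 0 := (Fact.out : p.Prime).ne_zero
  have hm0 : ∀ i j, m i j ≠ 0 := by
    intro i j h
    apply hm i j
    rw [h]
    exact dvd_zero _
  have hfac : ∀ i j, ∃ e' n', ¬ p ∣ n' ∧ m i j = p ^ e' * n' := fun i j =>
    Nat.exists_eq_pow_mul_and_not_dvd (hm0 i j) p (Fact.out : p.Prime).ne_one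
  choose ε n hn hmn using hfac
  have hε : ∀ i j, ε i j ≤ e i := by
    intro i j
    by_contra h
    apply hm i j
    rw [hmn i j]
    exact Dvd.dvd.mul_right (pow_dvd_pow p (by omega)) _
  have hn0 : ∀ i j, n i j ≠ 0 := by
    intro i j h
    apply hn i j
    rw [h]
    exact dvd_zero _
  let z : (i : Fin h) → Fin (N i) → K := fun i j => y i j ^ n i j
  have hzm : ∀ i j, z i j ^ p ^ ε i j = y i j ^ m i j := by
    intro i j
    change (y i j ^ n i j) ^ p ^ ε i j = y i j ^ m i j
    rw [← pow_mul, hmn i j, mul_comm]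
  let K1 : IntermediateField E K :=
    IntermediateField.adjoin E (Set.range fun ij : Σ i, Fin (N i) => z ij.1 ij.2)
  have hz : ∀ i j, z i j ∈ K1 := fun i j => IntermediateField.subset_adjoin _ _ ⟨⟨i, j⟩, rfl⟩
  let z1 : (i : Fin h) → Fin (N i) → K1 := fun i j => ⟨z i j, hz i j⟩
  have hw : ∀ i j, ((z1 i j ^ p ^ ε i j : K1) : K) = y i j ^ m i j := fun i j => hzm i j
  have htop1 : IntermediateField.adjoin E
      (Set.range fun ij : Σ i, Fin (N i) => z1 ij.1 ij.2) = ⊤ := by
    apply IntermediateField.lift_injective K1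
    rw [adjoin_val, IntermediateField.lift_top]
  obtain ⟨htop', halg⟩ := alg_of_pow2 (fun ij : Σ i, Fin (N i) => y ij.1 ij.2) htop K1
    (fun ij => n ij.1 ij.2) (fun ij => hn0 _ _) (fun ij => hz _ _)
  have hs1 : ∀ i, IsScalarTower (F i) K1 K := fun i => IsScalarTower.of_algebraMap_eq fun r => rfl
  have hs2 : IsScalarTower k K1 K := IsScalarTower.of_algebraMap_eq fun r => rfl
  have hs3 : IsScalarTower k E K1 := IsScalarTower.of_algebraMap_eq fun r =>
    Subtype.ext (IsScalarTower.algebraMap_apply k E K r)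
  have hs4 : ∀ i, IsScalarTower (F i) E K1 := fun i => IsScalarTower.of_algebraMap_eq fun r =>
    Subtype.ext (IsScalarTower.algebraMap_apply (F i) E K r)
  have hsum1 : Algebra.trdeg E K1 = ((∑ i, d i : ℕ) : Cardinal) := by
    have h1 : Algebra.trdeg E K1 + Algebra.trdeg K1 K = Algebra.trdeg E K := trdeg_add_eq E K1
    have h2 : Algebra.trdeg K1 K = 0 := trdeg_eq_zero
    rw [← hsum, ← h1, h2, add_zero]
  have htr1 : ∀ i, Algebra.trdeg E (IntermediateField.adjoin E (Set.range (z1 i))) = d i := by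
    intro i
    rw [trdeg_val]
    refine trdeg_roots (F := F i) (z i) (fun j => p ^ ε i j) (fun j => pow_ne_zero _ hp0) (d i) ?_
    have h1 : (fun j => z i j ^ p ^ ε i j) = fun j => y i j ^ m i j := funext (hzm i)
    rw [h1]
    exact htr i
  have hδ1 : ∀ i, ∀ t : ℕ, (d i).factorial *
      Module.finrank (F i) (img (F i) (fun j => z1 i j ^ p ^ ε i j) t) ≤
        δ i * (t + C0 i) ^ d i := by
    intro i t
    rw [finrank_img_val' K1]
    have h1 : (fun j => ((z1 i j ^ p ^ ε i j : K1) : K)) = fun j => y i j ^ m i j :=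
      funext (hw i)
    rw [h1]
    exact hδ i t
  have hval : ∀ i (g : MvPolynomial (Fin (N i)) (F i)),
      algebraMap K1 K (aeval (fun j => z1 i j ^ p ^ ε i j) g) =
        aeval (fun j => y i j ^ m i j) g := by
    intro i g
    have h1 : (fun j => ((z1 i j ^ p ^ ε i j : K1) : K)) = fun j => y i j ^ m i j :=
      funext (hw i)
    rw [← h1]
    exact aeval_val K1 (fun j => z1 i j ^ p ^ ε i j) g
  obtain ⟨T, I, hT, hI, M, hFr, hMb, hMc, hMz⟩ := iter p hE h F e ρ hρ N d δ s C0 K1 z1 ε hε htop1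
    htr1 hsum1 hδ1 hs hD B G (fun i b h => hG i b (by rw [← hval, h, map_zero])) hdeg C' c hc
  -- the tame radicals
  let J := {ij : Σ i, Fin (N i) // y ij.1 ij.2 ≠ 0}
  let eq : Fin (Fintype.card J) ≃ J := (Fintype.equivFin J).symm
  let g : ((Σ i, B i) ⊕ C') ⊕ J → K1 := Sum.elim
    (Sum.elim (fun b => aeval (fun j => z1 b.1 j ^ p ^ ε b.1 j) (G b.1 b.2))
      fun i => algebraMap E K1 (c i))
    fun ij => z1 ij.1.1 ij.1.2
  have hg : ∀ b, IsBr M (g b) := by
    rintro ((b | i) | i)
    · exact hMb b.1 b.2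
    · exact hMc i
    · refine hMz i.1.1 i.1.2 fun h => ?_
      apply pow_ne_zero (n i.1.1 i.1.2) i.2
      exact congrArg Subtype.val h
  have hgen : IntermediateField.adjoin K1
      (Set.range fun j => y (eq j).1.1 (eq j).1.2) = ⊤ := by
    rw [eq_top_iff, ← htop', IntermediateField.adjoin_le_iff]
    rintro _ ⟨i, rfl⟩
    by_cases h : y i.1 i.2 = 0
    · change y i.1 i.2 ∈ _
      rw [h]
      exact zero_mem _
    · refine IntermediateField.subset_adjoin K1 _ ⟨eq.symm ⟨i, h⟩, ?_⟩
      change y (eq (eq.symm ⟨i, h⟩)).1.1 (eq (eq.symm ⟨i, h⟩)).1.2 = y i.1 i.2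
      rw [Equiv.apply_symm_apply]
  obtain ⟨T', I', hT', hI', M', hFr', hM1, hM2⟩ := kummer_isBr p M hFr g hg
    (fun j => y (eq j).1.1 (eq j).1.2) (fun j => (eq j).2) (fun j => n (eq j).1.1 (eq j).1.2)
    (fun j h => hn (eq j).1.1 (eq j).1.2 ((CharP.cast_eq_zero_iff k p _).1 h))
    (fun j => Pi.single (Sum.inr (eq j)) 1) (fun j => by
      rw [Finset.prod_eq_single (Sum.inr (eq j))]
      · rw [Pi.single_eq_same, zpow_one]
        rfl
      · intro l _ hl
        rw [Pi.single_eq_of_ne hl, zpow_zero]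
      · intro h
        exact absurd (Finset.mem_univ _) h) hgen
  refine ⟨T', I', hT', hI', M', hFr', fun i b => ?_, fun i => ?_, fun i j hi => ?_⟩
  · rw [← hval]
    exact hM1 (Sum.inl (Sum.inl ⟨i, b⟩))
  · exact hM1 (Sum.inl (Sum.inr i))
  · have h1 := hM2 (eq.symm ⟨⟨i, j⟩, hi⟩)
    rw [Equiv.apply_symm_apply] at h1
    exact h1

/-- **Tame radical extensions.** The products are given by families of boundary functions. -/
theorem ffin (p : ℕ) [Fact p.Prime] {k E K0 K : Type u} [Field k] [CharP k p]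
    [Field E] [Field K0] [Algebra k E] [Algebra E K0] [Algebra k K0] [IsScalarTower k E K0]
    (hE : HasLM k E)
    {h : ℕ} (F : Fin h → Type u) [∀ i, Field (F i)] [∀ i, Algebra (F i) E]
    [∀ i, Algebra.IsAlgebraic (F i) E] [∀ i, Algebra (F i) K0] [∀ i, IsScalarTower (F i) E K0]
    {N : Fin h → ℕ} (y : (i : Fin h) → Fin (N i) → K0) (m : (i : Fin h) → Fin (N i) → ℕ)
    (e : Fin h → ℕ) (hm : ∀ i j, ¬ p ^ (e i + 1) ∣ m i j)
    (hF : ∀ i, ∀ a : F i, ∃ b : E, b ^ p ^ e i = algebraMap (F i) E a)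
    (htop : IntermediateField.adjoin E (Set.range fun ij : Σ i, Fin (N i) => y ij.1 ij.2) = ⊤)
    (d δ C0 s0 : Fin h → ℕ)
    (htr : ∀ i, Algebra.trdeg (F i) (IntermediateField.adjoin (F i)
      (Set.range fun j => y i j ^ m i j)) = d i)
    (hsum : Algebra.trdeg E K0 = ((∑ i, d i : ℕ) : Cardinal))
    (hδ : ∀ i, ∀ t : ℕ, (d i).factorial *
      Module.finrank (F i) (img (F i) (fun j => y i j ^ m i j) t) ≤ δ i * (t + C0 i) ^ d i)
    (hs0 : ∀ i, 1 ≤ s0 i)
    (hD : ∀ i, (Infinite (F i) ∧ ((Nat.factorial ((s0 i * δ i) ^ 2 ^ d i) : ℕ) : k) ≠ 0) ∨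
      ((Nat.factorial ((max (s0 i) (δ i)) ^ 2 ^ (N i - 1)) : ℕ) : k) ≠ 0)
    [Field K] [Algebra K0 K] [Algebra k K] [IsScalarTower k K0 K]
    (P : Type) [Finite P] (z : P → K0) (hz0 : ∀ b, z b ≠ 0)
    (c : P → E) (a : P → (i : Fin h) → Fin (N i) → ℤ) (q : P → Fin h → ℕ)
    (G : (b : P) → (i : Fin h) → Fin (q b i) → MvPolynomial (Fin (N i)) (F i))
    (e' : (b : P) → (i : Fin h) → Fin (q b i) → ℤ)
    (hG : ∀ b i l, (G b i l).totalDegree ≤ s0 i)
    (hz : ∀ b, z b = algebraMap E K0 (c b) * (∏ i, ∏ j, y i j ^ a b i j) *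
      ∏ i, ∏ l, (aeval (fun j => y i j ^ m i j) (G b i l)) ^ e' b i l)
    {s : ℕ} (w : Fin s → K) (hw0 : ∀ j, w j ≠ 0) (n : Fin s → ℕ) (hn : ∀ j, ¬ p ∣ n j)
    (bw : Fin s → P) (hw : ∀ j, w j ^ n j = algebraMap K0 K (z (bw j)))
    (hgen : IntermediateField.adjoin K0 (Set.range w) = ⊤) :
    ∃ (T I : Type) (_ : Finite T) (_ : Fintype I) (M : LM (⊥ : Subalgebra k K) ⊤ T I),
      Frc M ∧ (∀ b, IsBr M (algebraMap K0 K (z b))) ∧ ∀ j, IsBr M (w j) := by
  classical
  have := Fintype.ofFinite P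
  have hEp : CharP E p := charP_of_injective_algebraMap (algebraMap k E).injective p
  choose ρ hρ using fun i => exists_rho p (e i) (hF i)
  let H : (i : Fin h) → (Σ b, Fin (q b i)) → K0 := fun i l =>
    aeval (fun j => y i j ^ m i j) (G l.1 i l.2)
  obtain ⟨T, I, hT, hI, M, hFr, hM1, hM2, hM3⟩ := fall_models p hE F y m e hm ρ hρ htop d δ C0 s0
    htr hsum hδ hs0 hD (fun i => {l : Σ b, Fin (q b i) // H i l ≠ 0})
    (fun i l => G l.1.1 i l.1.2) (fun i l => l.2)
    (fun i l => hG l.1.1 i l.1.2) {b : P // c b ≠ 0} (fun b => c b.1) (fun b => b.2)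
  have hzb : ∀ b, IsBr M (z b) := by
    intro b
    have hj := hz0 b
    rw [hz b] at hj ⊢
    rw [mul_ne_zero_iff, mul_ne_zero_iff, Finset.prod_ne_zero_iff, Finset.prod_ne_zero_iff] at hj
    refine IsBr.mul (IsBr.mul ?_ (IsBr.prod _ _ fun i _ => IsBr.prod _ _ fun j _ => ?_))
      (IsBr.prod _ _ fun i _ => IsBr.prod _ _ fun l _ => ?_)
    · refine hM2 ⟨b, fun h => hj.1.1 ?_⟩
      rw [h, map_zero]
    · by_cases h0 : y i j = 0
      · have h1 : a b i j = 0 := by
          by_contra h2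
          apply hj.1.2 i (Finset.mem_univ i)
          apply Finset.prod_eq_zero (Finset.mem_univ j)
          rw [h0, zero_zpow _ h2]
        rw [h1, zpow_zero]
        exact IsB.one.br
      · exact (hM3 i j h0).zpow _
    · by_cases h0 : H i ⟨b, l⟩ = 0
      · have h1 : e' b i l = 0 := by
          by_contra h2
          apply hj.2 i (Finset.mem_univ i)
          apply Finset.prod_eq_zero (Finset.mem_univ l)
          change H i ⟨b, l⟩ ^ e' b i l = 0
          rw [h0, zero_zpow _ h2]
        rw [h1, zpow_zero]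
        exact IsB.one.br
      · exact (hM1 i ⟨⟨b, l⟩, h0⟩).zpow _
  obtain ⟨T', I', hT', hI', M', hFr', hM1', hM2'⟩ := kummer_isBr p M hFr z hzb w hw0 n
    (fun j h => hn j ((CharP.cast_eq_zero_iff k p _).1 h))
    (fun j => Pi.single (bw j) 1) (fun j => by
      rw [Finset.prod_eq_single (bw j)]
      · rw [Pi.single_eq_same, zpow_one, hw]
      · intro l _ hl
        rw [Pi.single_eq_of_ne hl, zpow_zero]
      · intro h
        exact absurd (Finset.mem_univ _) h) hgen
  exact ⟨T', I', hT', hI', M', hFr', hM1', hM2'⟩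

end main

end Pool.Agent.N762.FP
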