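import Pool.Agent.N762.FP.Main2

/-!
Relations over `E` in a field which is free from `L` over `E`.
-/

set_option autoImplicit false
set_option linter.unusedVariables false
set_option linter.unusedSimpArgs false
set_option linter.unusedSectionVars false

universe u

open scoped IntermediateField.algebraAdjoinAdjoin

open Polynomial Pool.Agent.W558 Pool.Agent.W498.Tor Pool.Agent.W418.LCI Pool.Agent.N98
  Pool.Agent.N762.RC

namespace Pool.Agent.N762.FP

section free

variable {E L K2 K : Type u} [Field E] [Field L] [Field K2] [Field K] [Algebra E L] [Algebra E K2]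
  [Algebra E K] [Algebra L K] [IsScalarTower E L K]

/-- The field `K2` is free from `L` over `E`: algebraically independent elements over `E` remain
algebraically independent over `L`. -/
def Free (L : Type u) [Field L] [Algebra L K] (ι : K2 →ₐ[E] K) : Prop :=
  ∀ (m : ℕ) (a : Fin m → K2), AlgebraicIndependent E a →
    AlgebraicIndependent L (fun c => ι (a c))

/-- An element which is algebraic over an intermediate field, mapped to another field. -/
lemma alg_map {A : Type*} [CommRing A] [IsDomain A] {z : K2} [Algebra A K2]
    (hz : IsAlgebraic A z) {M0 : Type*} [Field M0] [Algebra M0 K] (f : A →+* M0)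
    (hf : Function.Injective f) (g : K2 →+* K)
    (hfg : (algebraMap M0 K).comp f = g.comp (algebraMap A K2)) : IsAlgebraic M0 (g z) := by
  obtain ⟨P, hP, hPz⟩ := hz
  refine ⟨P.map f, fun h => hP (Polynomial.map_injective f hf (by rw [h, Polynomial.map_zero])),
    ?_⟩
  rw [aeval_def] at hPz ⊢
  rw [eval₂_map, hfg]
  have h1 := hom_eval₂ P (algebraMap A K2) g z
  rw [hPz, map_zero] at h1
  exact h1.symm

/-- Algebraic elements over a field of algebraic elements. -/
lemma alg_trans {M0 M1 : Type*} [Field M0] [Field M1] [Algebra M0 K] [Algebra M1 K] {S : Set K}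
    (hS : ∀ s ∈ S, IsAlgebraic M0 s)
    (hM1 : ∀ l : M1, algebraMap M1 K l ∈ IntermediateField.adjoin M0 S) {z : K}
    (hz : IsAlgebraic M1 z) : IsAlgebraic M0 z := by
  have hN : Algebra.IsAlgebraic M0 (IntermediateField.adjoin M0 S) :=
    IntermediateField.isAlgebraic_adjoin fun s hs => (hS s hs).isIntegral
  let f : M1 →+* IntermediateField.adjoin M0 S := (algebraMap M1 K).codRestrict
    (IntermediateField.adjoin M0 S).toSubring hM1
  have hz2 : IsAlgebraic (IntermediateField.adjoin M0 S) z :=
    alg_map (K2 := K) hz f f.injective (RingHom.id K) rfl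
  exact hz2.restrictScalars _

/-- If `K` is algebraic over the field generated by `L` and a free field, and the transcendence
degrees are the same. -/
theorem free_of_trdeg (ι : K2 →ₐ[E] K)
    (halg : ∀ z : K, IsAlgebraic (IntermediateField.adjoin L (Set.range ι)) z) (d : ℕ)
    (h2 : Algebra.trdeg E K2 = d) (hL : Algebra.trdeg L K = d) : Free L ι := by
  classical
  intro m a ha
  obtain ⟨s, hs1, -, hb⟩ := exists_isTranscendenceBasis_between (R := E) (Set.range a)
    Set.univ (Set.subset_univ _) ha.to_subtype_range (ht := by
      rw [Algebra.adjoin_univ]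
      refine ⟨fun z => ?_⟩
      exact isAlgebraic_algebraMap (⟨z, trivial⟩ : (⊤ : Subalgebra E K2)))
  have hcard : Cardinal.mk s = d := by
    rw [← h2]
    exact hb.cardinalMk_eq_trdeg
  have hfin : Finite s := by
    rw [← Cardinal.lt_aleph0_iff_finite, hcard]
    exact Cardinal.natCast_lt_aleph0
  -- the image is a transcendence basis
  let y : s → K := fun i => ι i
  have hM : ∀ z : K2, IsAlgebraic (IntermediateField.adjoin L (Set.range y)) (ι z) := by
    intro z
    have hz := hb.isAlgebraic.isAlgebraic z
    have hle : Algebra.adjoin E (Set.range ((↑) : s → K2)) ≤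
        ((IntermediateField.adjoin L (Set.range y)).restrictScalars E).toSubalgebra.comap ι := by
      rw [Algebra.adjoin_le_iff]
      rintro _ ⟨i, rfl⟩
      change y i ∈ IntermediateField.adjoin L (Set.range y)
      exact IntermediateField.subset_adjoin L (Set.range y) (Set.mem_range_self i)
    let f : Algebra.adjoin E (Set.range ((↑) : s → K2)) →+*
        IntermediateField.adjoin L (Set.range y) :=
      ((ι : K2 →+* K).comp (algebraMap (Algebra.adjoin E (Set.range ((↑) : s → K2))) K2)).codRestrict
        (IntermediateField.adjoin L (Set.range y)).toSubring (fun l => hle l.2)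
    have hf : Function.Injective f := fun l l' h =>
      Subtype.ext (ι.injective (congrArg Subtype.val h))
    have hfg : (algebraMap (IntermediateField.adjoin L (Set.range y)) K).comp f =
        (ι : K2 →+* K).comp (algebraMap (Algebra.adjoin E (Set.range ((↑) : s → K2))) K2) :=
      RingHom.ext fun l => rfl
    exact alg_map hz f hf (ι : K2 →+* K) hfg
  have halg' : Algebra.IsAlgebraic (Algebra.adjoin L (Set.range y)) K := by
    have h1 : Algebra.IsAlgebraic (IntermediateField.adjoin L (Set.range y)) K := by
      refine ⟨fun z => ?_⟩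
      refine alg_trans (M1 := IntermediateField.adjoin L (Set.range ι)) (S := Set.range ι) ?_ ?_
        (halg z)
      · rintro _ ⟨z, rfl⟩
        exact hM z
      · intro l
        have hle : IntermediateField.adjoin L (Set.range ι) ≤
            (IntermediateField.adjoin (IntermediateField.adjoin L (Set.range y))
              (Set.range ι)).restrictScalars L := by
          refine IntermediateField.adjoin_le_iff.2 ?_
          rintro _ ⟨i, rfl⟩
          change ι i ∈ IntermediateField.adjoin (IntermediateField.adjoin L (Set.range y))
            (Set.range ι)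
          exact IntermediateField.subset_adjoin _ (Set.range ι) (Set.mem_range_self i)
        exact hle l.2
    exact (IsFractionRing.comap_isAlgebraic_iff (A := Algebra.adjoin L (Set.range y))
      (K := IntermediateField.adjoin L (Set.range y)) (C := K)).2 h1
  have hyb : IsTranscendenceBasis L y := by
    refine Algebra.IsAlgebraic.isTranscendenceBasis_of_lift_le_trdeg_of_finite L y ?_
    rw [hL, hcard]
  have h3 : AlgebraicIndependent L (fun c : Fin m => y ⟨a c, hs1 ⟨c, rfl⟩⟩) :=
    hyb.1.comp _ fun c c' h => ha.injective (congrArg Subtype.val h)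
  exact h3

variable {n : ℕ}

/-- A transcendental coordinate remains transcendental. -/
theorem free_tr {x : Fin (n + 1) → K2} {y : Fin (n + 1) → K} (ι : K2 →ₐ[E] K)
    (hy : ∀ i, ι (x i) = y i) (hfree : Free L ι) (hT : Transcendental (LF (E := E) x) (x 0)) :
    Transcendental (LF (E := L) y) (y 0) := by
  classical
  obtain ⟨m, a, i, hab, hai⟩ := exists_tb' (F := E) (tl E x) (tl_top x)
  have hindK : AlgebraicIndependent E (fun c => (a c : K2)) :=
    hab.1.map' (f := (LF (E := E) x).val) (LF (E := E) x).val.injective
  let a' : Fin (m + 1) → K2 := Fin.cons (x 0) (fun c => (a c : K2))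
  have ha' : AlgebraicIndependent E a' := by
    have h1 : Transcendental (Algebra.adjoin E (Set.range fun c => (a c : K2))) (x 0) :=
      Pool.Agent.N762.RC2.tr_adjoin (L := LF (E := E) x) (fun c => (a c).2) hT
    have h2 := (hindK.option_iff_transcendental (x 0)).2 h1
    have h3 := h2.comp (_root_.finSuccEquiv m) (_root_.finSuccEquiv m).injective
    have h4 : (fun o : Option (Fin m) => o.elim (x 0) fun c => (a c : K2)) ∘
        (_root_.finSuccEquiv m) = a' := by
      funext c
      refine Fin.cases ?_ (fun c => ?_) c
      · rw [Function.comp_apply, finSuccEquiv_zero]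
        rfl
      · rw [Function.comp_apply, finSuccEquiv_succ]
        rfl
    rw [h4] at h3
    exact h3
  let z : Fin (m + 1) → K := fun c => ι (a' c)
  have hz : AlgebraicIndependent L z := hfree (m + 1) a' ha'
  have hzT : Transcendental (LF (E := L) z) (z 0) := hd_tr hz
  have hz0 : z 0 = y 0 := hy 0
  have hzs : ∀ c : Fin m, z c.succ = ι (a c : K2) := fun c => rfl
  rw [hz0] at hzT
  -- the field generated by the other coordinates is algebraic over the smaller field
  have hM : ∀ l : LF (E := E) x, IsAlgebraic (LF (E := L) z) (ι (l : K2)) := by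
    intro l
    have hl := hab.isAlgebraic.isAlgebraic l
    have hle : Algebra.adjoin E (Set.range a) ≤
        ((LF (E := L) z).restrictScalars E).toSubalgebra.comap
          (ι.comp (LF (E := E) x).val) := by
      rw [Algebra.adjoin_le_iff]
      rintro _ ⟨c, rfl⟩
      change (z ∘ Fin.succ) c ∈ IntermediateField.adjoin L (Set.range (z ∘ Fin.succ))
      exact IntermediateField.subset_adjoin L (Set.range (z ∘ Fin.succ)) (Set.mem_range_self c)
    let g : LF (E := E) x →+* K := (ι.comp (LF (E := E) x).val : LF (E := E) x →ₐ[E] K)
    let f : Algebra.adjoin E (Set.range a) →+* LF (E := L) z :=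
      (g.comp (algebraMap (Algebra.adjoin E (Set.range a)) (LF (E := E) x))).codRestrict
        (LF (E := L) z).toSubring (fun l => hle l.2)
    have hf : Function.Injective f := fun l l' h =>
      Subtype.ext (g.injective (congrArg Subtype.val h))
    have hfg : (algebraMap (LF (E := L) z) K).comp f =
        g.comp (algebraMap (Algebra.adjoin E (Set.range a)) (LF (E := E) x)) :=
      RingHom.ext fun l => rfl
    exact alg_map hl f hf g hfg
  intro halg
  apply hzT
  refine alg_trans (M1 := LF (E := L) y) (S := Set.range (y ∘ Fin.succ)) ?_ ?_ halg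
  · rintro _ ⟨i, rfl⟩
    have h1 := hM (tl E x i)
    have h2 : ι ((tl E x i : LF (E := E) x) : K2) = (y ∘ Fin.succ) i := hy i.succ
    rw [h2] at h1
    exact h1
  · intro l
    have hle : LF (E := L) y ≤
        (IntermediateField.adjoin (LF (E := L) z) (Set.range (y ∘ Fin.succ))).restrictScalars
          L := by
      refine IntermediateField.adjoin_le_iff.2 ?_
      rintro _ ⟨i, rfl⟩
      change (y ∘ Fin.succ) i ∈ IntermediateField.adjoin (LF (E := L) z)
        (Set.range (y ∘ Fin.succ))
      exact IntermediateField.subset_adjoin _ (Set.range (y ∘ Fin.succ)) (Set.mem_range_self i)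
    exact hle l.2

variable (p : ℕ) [Fact p.Prime] [CharP E p]

/-- The relations over `E` lift. -/
theorem rel_lift (D e : ℕ) : ∀ (n : ℕ) (ε : Fin n → ℕ) (K2 : Type u) [Field K2] [Algebra E K2]
    (x : Fin n → K2) (K : Type u) [Field K] [Algebra L K] [Algebra E K] [IsScalarTower E L K]
    (y : Fin n → K) (ι : K2 →ₐ[E] K), (∀ i, ι (x i) = y i) → Free L ι →
    Rel p E D e n ε K2 x → Rel2 p E L D e n ε K y := by
  intro n
  induction n with
  | zero => intros; trivial
  | succ n ih =>
    rintro ε K2 _ _ x K _ _ _ _ y ι hy hfree ⟨h1, h2⟩
    have hmem : ∀ l : LF (E := E) x, ι (l : K2) ∈ LF (E := L) y := by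
      intro l
      have hle : LF (E := E) x ≤ ((LF (E := L) y).restrictScalars E).comap ι := by
        unfold LF
        rw [IntermediateField.adjoin_le_iff]
        rintro _ ⟨i, rfl⟩
        change ι (x i.succ) ∈ IntermediateField.adjoin L (Set.range (y ∘ Fin.succ))
        rw [hy]
        exact IntermediateField.subset_adjoin _ _ ⟨i, rfl⟩
      exact hle l.2
    let θ : LF (E := E) x →ₐ[E] LF (E := L) y :=
      { toFun := fun l => ⟨ι l, hmem l⟩
        map_one' := Subtype.ext (by
          change ι ((1 : LF (E := E) x) : K2) = 1
          rw [OneMemClass.coe_one, map_one])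
        map_mul' := fun a b => Subtype.ext (by
          change ι ((a * b : LF (E := E) x) : K2) = ι a * ι b
          rw [MulMemClass.coe_mul, map_mul])
        map_zero' := Subtype.ext (by
          change ι ((0 : LF (E := E) x) : K2) = 0
          rw [ZeroMemClass.coe_zero, map_zero])
        map_add' := fun a b => Subtype.ext (by
          change ι ((a + b : LF (E := E) x) : K2) = ι a + ι b
          rw [AddMemClass.coe_add, map_add])
        commutes' := fun r => Subtype.ext (by
          change ι (algebraMap E K2 r) = algebraMap E K r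
          exact ι.commutes r) }
    have hθ : ∀ l, ((θ l : LF (E := L) y) : K) = ι (l : K2) := fun l => rfl
    have hθt : ∀ i, θ (tl E x i) = tl L y i := fun i => Subtype.ext (hy i.succ)
    have hevθ : ((θ : LF (E := E) x →+* LF (E := L) y)).comp
        (ev p (tl E x) e (ε ∘ Fin.succ) : MvPolynomial (Fin n) E →+* LF (E := E) x) =
        (ev p (tl L y) e (ε ∘ Fin.succ) : MvPolynomial (Fin n) E →+* LF (E := L) y) := by
      apply MvPolynomial.ringHom_ext
      · intro a
        rw [RingHom.comp_apply, ev_C, ev_C]
        exact θ.commutes _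
      · intro i
        rw [RingHom.comp_apply, ev_X, ev_X]
        change θ (tl E x i ^ p ^ (ε ∘ Fin.succ) i) = _
        rw [map_pow, hθt]
    refine ⟨?_, ?_⟩
    · rcases h1 with hT | ⟨G, hG, hG0, hG1⟩
      · exact Or.inl (free_tr ι hy hfree hT)
      · refine Or.inr ⟨G, hG, ?_, ?_⟩
        · rw [← hevθ, ← Polynomial.map_map]
          intro h
          exact hG0 ((Polynomial.map_eq_zero _).1 h)
        · have h3 : (algebraMap (LF (E := L) y) K).comp
                (ev p (tl L y) e (ε ∘ Fin.succ) : MvPolynomial (Fin n) E →+* LF (E := L) y) =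
              (ι : K2 →+* K).comp ((algebraMap (LF (E := E) x) K2).comp
                (ev p (tl E x) e (ε ∘ Fin.succ) : MvPolynomial (Fin n) E →+* LF (E := E) x)) := by
            rw [← hevθ]
            rfl
          have h4 := hom_eval₂ G ((algebraMap (LF (E := E) x) K2).comp
            (ev p (tl E x) e (ε ∘ Fin.succ))) (ι : K2 →+* K) (x 0 ^ p ^ ε 0)
          rw [hG1, map_zero, ← h3] at h4
          have h5 : (ι : K2 →+* K) (x 0 ^ p ^ ε 0) = y 0 ^ p ^ ε 0 := by
            change ι (x 0 ^ p ^ ε 0) = _
            rw [map_pow, hy]
          rw [h5] at h4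
          exact h4.symm
    · refine ih (ε ∘ Fin.succ) (LF (E := E) x) (tl E x) (LF (E := L) y) (tl L y) θ hθt ?_ h2
      intro m a ha
      have h3 : AlgebraicIndependent E (fun c => (a c : K2)) :=
        ha.map' (f := (LF (E := E) x).val) (LF (E := E) x).val.injective
      have h4 := hfree m _ h3
      exact AlgebraicIndependent.of_comp (LF (E := L) y).val h4

end free

end Pool.Agent.N762.FP
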