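import Pool.Agent.N762.FP.Trd

/-!
Models of fields generated by several families: each family consists of the coordinates of a variety
of bounded degree, and the families are independent over the field `E`.
-/

set_option autoImplicit false
set_option linter.unusedVariables false
set_option linter.unusedSimpArgs false
set_option linter.unusedSectionVars false

universe u

open MvPolynomial Pool.Agent.W558 Pool.Agent.W498.Tor Pool.Agent.W418.LCI Pool.Agent.N98
  Pool.Agent.N762.RC Pool.Agent.N762.RC2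

namespace Pool.Agent.N762.FP

/-- Values at elements of an intermediate field. -/
lemma aeval_val {F E K : Type u} [Field F] [Field E] [Field K] [Algebra F E] [Algebra E K]
    [Algebra F K] [IsScalarTower F E K] (K1 : IntermediateField E K) {τ : Type*} (w : τ → K1)
    (g : MvPolynomial τ F) : ((aeval w g : K1) : K) = aeval (fun i => (w i : K)) g :=
  congrArg (fun f : MvPolynomial τ F →ₐ[F] K => f g)
    (comp_aeval (R := F) w ((K1.val : K1 →ₐ[E] K).restrictScalars F))

/-- **Several families.** -/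
theorem iter (p : ℕ) [Fact p.Prime] {k E : Type u} [Field k] [CharP k p] [Field E]
    [CharP E p] [Algebra k E] (hE : HasLM k E) :
    ∀ (h : ℕ) (F : Fin h → Type u) [∀ i, Field (F i)] [∀ i, Algebra (F i) E]
      [∀ i, Algebra.IsAlgebraic (F i) E] (e : Fin h → ℕ) (ρ : (i : Fin h) → F i →+* E),
      (∀ i a, (ρ i a) ^ p ^ e i = algebraMap (F i) E a) →
      ∀ (N d δ s C0 : Fin h → ℕ) (K : Type u) [Field K] [Algebra E K] [∀ i, Algebra (F i) K]
      [∀ i, IsScalarTower (F i) E K] [Algebra k K] [IsScalarTower k E K]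
      (x : (i : Fin h) → Fin (N i) → K) (ε : (i : Fin h) → Fin (N i) → ℕ),
      (∀ i j, ε i j ≤ e i) →
      IntermediateField.adjoin E (Set.range fun ij : Σ i, Fin (N i) => x ij.1 ij.2) = ⊤ →
      (∀ i, Algebra.trdeg E (IntermediateField.adjoin E (Set.range (x i))) = d i) →
      Algebra.trdeg E K = ((∑ i, d i : ℕ) : Cardinal) →
      (∀ i, ∀ t : ℕ, (d i).factorial *
        Module.finrank (F i) (img (F i) (fun j => x i j ^ p ^ ε i j) t) ≤
          δ i * (t + C0 i) ^ d i) →
      (∀ i, 1 ≤ s i) →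
      (∀ i, (Infinite (F i) ∧ ((Nat.factorial ((s i * δ i) ^ 2 ^ d i) : ℕ) : k) ≠ 0) ∨
        ((Nat.factorial ((max (s i) (δ i)) ^ 2 ^ (N i - 1)) : ℕ) : k) ≠ 0) →
      ∀ (B : Fin h → Type) [∀ i, Finite (B i)]
        (G : (i : Fin h) → B i → MvPolynomial (Fin (N i)) (F i)),
        (∀ i b, aeval (fun j => x i j ^ p ^ ε i j) (G i b) ≠ 0) →
        (∀ i b, (G i b).totalDegree ≤ s i) →
        ∀ (B' : Type) [Finite B'] (b' : B' → E), (∀ i, b' i ≠ 0) →
          ∃ (T I : Type) (_ : Finite T) (_ : Fintype I) (M : LM (⊥ : Subalgebra k K) ⊤ T I),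
            Frc M ∧ (∀ i b, IsBr M (aeval (fun j => x i j ^ p ^ ε i j) (G i b))) ∧
            (∀ i, IsBr M (algebraMap E K (b' i))) ∧ ∀ i j, x i j ≠ 0 → IsBr M (x i j) := by
  classical
  intro h
  induction h with
  | zero =>
    intro F _ _ _ e ρ hρ N d δ s C0 K _ _ _ _ _ _ x ε _ htop _ _ _ _ _ B _ G _ _ B' _ b' hb'
    have := Fintype.ofFinite B'
    obtain ⟨T, I, hT, hI, M, Γ, hF, hfr⟩ := hE B' b' hb'
    have hsurj : ∀ y : K, ∃ e : E, algebraMap E K e = y := by
      intro y
      have hy : y ∈ IntermediateField.adjoin E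
        (Set.range fun ij : Σ i, Fin (N i) => x ij.1 ij.2) := by rw [htop]; trivial
      have h2 : IsEmpty (Σ i, Fin (N i)) := ⟨fun ij => ij.1.elim0⟩
      rw [Set.range_eq_empty, IntermediateField.adjoin_empty, IntermediateField.mem_bot] at hy
      exact hy
    refine ⟨T, I, hT, hI, mapLM M, ?_, fun i => i.elim0, ?_, fun i => i.elim0⟩
    · intro t y
      obtain ⟨e, rfl⟩ := hsurj y
      obtain ⟨a, ha, b, hb, hb0, rfl⟩ := hfr t e
      exact ⟨algebraMap E K a, ⟨a, ha, rfl⟩, algebraMap E K b, ⟨b, hb, rfl⟩,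
        (_root_.map_ne_zero _).2 hb0, by rw [map_mul, map_inv₀]⟩
    · intro b
      exact isBr_map (IsB.br ⟨Γ b, fun t => hF b t⟩)
  | succ m ih =>
    intro F _ _ _ e ρ hρ N d δ s C0 K _ _ _ _ _ _ x ε hε htop htr hsum hδ hs hD B _ G hG hdeg B' _
      b' hb'
    obtain ⟨htL, htK⟩ := trdeg_step d x htop htr hsum
    let L := FL E x
    have hs1 : IsScalarTower k E L := IsScalarTower.of_algebraMap_eq fun r =>
      Subtype.ext (IsScalarTower.algebraMap_apply k E K r)
    have hs2 : IsScalarTower k L K := IsScalarTower.of_algebraMap_eq fun r => rfl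
    have hs3 : ∀ i, IsScalarTower (F i) E L := fun i => IsScalarTower.of_algebraMap_eq fun r =>
      Subtype.ext (IsScalarTower.algebraMap_apply (F i) E K r)
    -- the values in `L`
    let v : (i : Fin m) → B i.castSucc → L := fun i b =>
      aeval (fun j => xL (E := E) x i j ^ p ^ ε i.castSucc j) (G i.castSucc b)
    have hv : ∀ i b, ((v i b : L) : K) =
        aeval (fun j => x i.castSucc j ^ p ^ ε i.castSucc j) (G i.castSucc b) := fun i b =>
      aeval_val L (fun j => xL (E := E) x i j ^ p ^ ε i.castSucc j) (G i.castSucc b)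
    have hv0 : ∀ i b, v i b ≠ 0 := by
      intro i b h
      apply hG i.castSucc b
      rw [← hv, h]
      rfl
    -- the boundary functions of the base
    let C := (Σ i : Fin m, B i.castSucc) ⊕
      {ij : Σ i : Fin m, Fin (N i.castSucc) // xL (E := E) x ij.1 ij.2 ≠ 0}
    let c : C → L := Sum.elim (fun ib => v ib.1 ib.2) fun ij => xL (E := E) x ij.1.1 ij.1.2
    have hc : ∀ i, c i ≠ 0 := by
      rintro (i | i)
      · exact hv0 i.1 i.2
      · exact i.2
    have hL : Base k E L C c := by
      intro B1 _ b1 hb1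
      obtain ⟨T, I, hT, hI, M, hFr, hM1, hM2, hM3⟩ := ih (fun i => F i.castSucc)
        (fun i => e i.castSucc) (fun i => ρ i.castSucc) (fun i => hρ i.castSucc)
        (fun i => N i.castSucc)
        (fun i => d i.castSucc) (fun i => δ i.castSucc) (fun i => s i.castSucc)
        (fun i => C0 i.castSucc) L (xL x) (fun i => ε i.castSucc) (fun i j => hε _ _) (xL_top x)
        (fun i => by
          rw [trdeg_val]
          exact htr i.castSucc) htL
        (fun i t => by
          rw [finrank_img_val' L]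
          exact hδ i.castSucc t)
        (fun i => hs _) (fun i => hD _) (fun i => B i.castSucc) (fun i => G i.castSucc)
        (fun i b => hv0 i b) (fun i b => hdeg _ b) B1 b1 hb1
      refine ⟨T, I, hT, hI, M, hFr, hM2, ?_⟩
      rintro (i | i)
      · exact hM1 i.1 i.2
      · exact hM3 i.1.1 i.1.2 i.2
    obtain ⟨T, I, hT, hI, M, hFr, hM1, hM2, hM3, hM4⟩ := good_step p c hc hL (x (Fin.last m))
      (ε (Fin.last m)) (e (Fin.last m)) (hε _) (ρ (Fin.last m)) (hρ _) (xl_top x htop) (d (Fin.last m)) (δ (Fin.last m))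
      (C0 (Fin.last m)) (htr _) htK (hδ _) (s (Fin.last m)) (hs _) (hD _) (B (Fin.last m))
      (G (Fin.last m)) (hG _) (hdeg _) B' b' hb'
    refine ⟨T, I, hT, hI, M, hFr, fun i => ?_, hM2, fun i => ?_⟩
    · refine Fin.lastCases ?_ (fun i => ?_) i
      · exact hM1
      · intro b
        have h1 := hM3 (Sum.inl ⟨i, b⟩)
        change IsBr M ((v i b : L) : K) at h1
        rw [hv] at h1
        exact h1
    · refine Fin.lastCases ?_ (fun i => ?_) i
      · exact hM4
      · intro j hj
        exact hM3 (Sum.inr ⟨⟨i, j⟩, fun h => hj (congrArg Subtype.val h)⟩)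

end Pool.Agent.N762.FP
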