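import Pool.Agent.N98.PJ.RelP
import Pool.Agent.N762.FP.Cls

/-!
Projective varieties with forms of degree one without common zeros which are boundary functions.
-/

set_option autoImplicit false
set_option linter.unusedVariables false
set_option linter.unusedSectionVars false

open AlgebraicGeometry CategoryTheory Limits HomogeneousLocalization Pool.Agent.W558
  Pool.Agent.N98 Pool.Agent.N98.PJ

namespace Pool.Agent.N762.FP

/-- A principalization of the homogeneous coordinates. -/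
theorem exists_chart_model' {k K : Type} [Field k] [Field K] [Algebra k K] {T I : Type} [Finite T]
    [Fintype I] (M : LM (⊥ : Subalgebra k K) ⊤ T I) (hFr : Frc M) {ι : Type} [Finite ι]
    [Nonempty ι] (y : ι → K) (hy : ∀ i, IsBr M (y i)) :
    ∃ (T' I' : Type) (_ : Finite T') (_ : Fintype I') (M' : LM (⊥ : Subalgebra k K) ⊤ T' I'),
      (∀ t, IsIntegrallyClosed (M'.A t) ∧ IsFractionRing (M'.A t) K) ∧
      ∀ t, ∃ a, ∀ i, y i / y a ∈ M'.A t := by
  classical
  have hy0 : ∀ i, y i ≠ 0 := fun i => (hy i).ne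
  obtain ⟨N, hN, hB⟩ := exists_common hy
  have hN0 : N ≠ 0 := by
    rintro rfl
    exact hN Nat.cast_zero
  obtain ⟨T', I', hT', hI', M', q, hq, hpr⟩ := exists_princ M (fun i => y i ^ N) hB
  have hFr' := hq.frc hFr
  have hnorm : ∀ t, IsIntegrallyClosed (M'.A t) ∧ IsFractionRing (M'.A t) K := by
    intro t
    have hsm := M'.sm t
    refine ⟨wd_norm k (M'.A t), ?_⟩
    refine IsFractionRing.of_field _ _ fun z => ?_
    obtain ⟨u, hu, v, hv, hv0, h⟩ := hFr' t z
    exact ⟨⟨u, hu⟩, ⟨v, hv⟩, by rw [h, div_eq_mul_inv]; rfl⟩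
  refine ⟨T', I', hT', hI', M', hnorm, fun t => ?_⟩
  obtain ⟨a, ha⟩ := exists_least (fun a b : ι => y b ^ N / y a ^ N ∈ M'.A t)
    (fun a b => hpr t a b) (fun a b c h1 h2 => by
      have h3 : y c ^ N / y a ^ N = (y c ^ N / y b ^ N) * (y b ^ N / y a ^ N) := by
        have := pow_ne_zero N (hy0 a)
        have := pow_ne_zero N (hy0 b)
        field_simp
      rw [h3]
      exact (M'.A t).mul_mem h2 h1)
  refine ⟨a, fun i => ?_⟩
  obtain ⟨hic, hfrac⟩ := hnorm t
  have h1 : IsIntegral (M'.A t) (y i / y a) := by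
    refine IsIntegral.of_pow (Nat.pos_of_ne_zero hN0) ?_
    rw [div_pow]
    exact isIntegral_algebraMap (x := (⟨_, ha i⟩ : M'.A t))
  obtain ⟨w, hw⟩ := IsIntegrallyClosed.isIntegral_iff.1 h1
  rw [← hw]
  exact w.2

/-- The forms of degree one. -/
theorem forms_mem {k S K : Type} [Field k] [CommRing S] [IsDomain S] [Algebra k S]
    (𝒜 : ℕ → Submodule k S) [GradedAlgebra 𝒜] (hgen : Algebra.adjoin k (𝒜 1 : Set S) = ⊤)
    (hfg : (𝒜 1).FG) [Field K] [Algebra k K] (ev : S →ₐ[k] K) {m : ℕ} (b : Fin m → S)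
    (hb : ∀ i, b i ∈ 𝒜 1) {n : ℕ} (hbn : ∀ s ∈ 𝒜 (n + 1), s ∈ Ideal.span (Set.range b))
    (A : Subalgebra k K) (hA : IsIntegrallyClosed A) (hAK : IsFractionRing A K) (a : Fin m)
    (ha0 : ev (b a) ≠ 0) (ha : ∀ i, ev (b i) / ev (b a) ∈ A) :
    ∀ s ∈ 𝒜 1, ev s / ev (b a) ∈ A := by
  classical
  intro s hs
  set f := ev (b a) with hf
  let X : Set K := {z | ∃ u ∈ 𝒜 n, z = ev u / f ^ n}
  let N : Submodule A K := Submodule.span A X
  have hX : ∀ u ∈ 𝒜 n, ev u / f ^ n ∈ N := fun u hu => Submodule.subset_span ⟨u, hu, rfl⟩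
  have hN0 : N ≠ ⊥ := by
    intro h
    have h1 : (1 : K) ∈ N := by
      have h2 := hX (b a ^ n) (by
        have h3 := SetLike.pow_mem_graded n (hb a)
        rwa [smul_eq_mul, mul_one] at h3)
      rw [map_pow, div_self (pow_ne_zero n ha0)] at h2
      exact h2
    rw [h, Submodule.mem_bot] at h1
    exact one_ne_zero h1
  have hNfg : N.FG := by
    have h1 := finite_graded 𝒜 hgen hfg n
    obtain ⟨G, hG⟩ := (Submodule.fg_iff_finiteDimensional (𝒜 n)).2 h1
    refine ⟨G.image fun u => ev u / f ^ n, ?_⟩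
    apply le_antisymm
    · rw [Submodule.span_le]
      intro z hz
      rw [Finset.coe_image] at hz
      obtain ⟨u, hu, rfl⟩ := hz
      refine hX u ?_
      rw [← hG]
      exact Submodule.subset_span hu
    · refine Submodule.span_le.2 ?_
      rintro _ ⟨u, hu, rfl⟩
      rw [← hG] at hu
      induction hu using Submodule.span_induction with
      | mem x hx =>
        refine Submodule.subset_span ?_
        rw [Finset.coe_image]
        exact ⟨x, hx, rfl⟩
      | zero => rw [map_zero, zero_div]; exact zero_mem _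
      | add x y _ _ hx hy => rw [map_add, add_div]; exact add_mem hx hy
      | smul c x _ hx =>
        rw [map_smul, Algebra.smul_def, mul_div_assoc]
        exact Submodule.smul_mem _ (⟨algebraMap k K c, Subalgebra.algebraMap_mem _ c⟩ : A) hx
  have hmul : ∀ z ∈ N, (ev s / f) • z ∈ N := by
    intro z hz
    induction hz using Submodule.span_induction with
    | mem z hz =>
      obtain ⟨u, hu, rfl⟩ := hz
      have h1 : s * u ∈ 𝒜 (n + 1) := by
        rw [add_comm]
        exact SetLike.mul_mem_graded hs hu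
      obtain ⟨c, hc⟩ := Ideal.mem_span_range_iff_exists_fun.1 (hbn _ h1)
      have h2 : s * u = ∑ i, b i * (DirectSum.decompose 𝒜 (c i) n : S) := by
        have h3 : (DirectSum.decompose 𝒜 (s * u) (n + 1) : S) = s * u :=
          DirectSum.decompose_of_mem_same 𝒜 h1
        rw [← h3, ← hc, DirectSum.decompose_sum, DFinsupp.finsetSum_apply,
          AddSubmonoidClass.coe_finsetSum]
        refine Finset.sum_congr rfl fun i _ => ?_
        rw [mul_comm, DirectSum.coe_decompose_mul_of_left_mem_of_le 𝒜 (hb i) (by omega)]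
        rfl
      have h4 : (ev s / f) • (ev u / f ^ n) =
          ∑ i, (ev (b i) / f) * (ev (DirectSum.decompose 𝒜 (c i) n : S) / f ^ n) := by
        rw [smul_eq_mul, div_mul_div_comm, ← map_mul, h2, map_sum, Finset.sum_div]
        refine Finset.sum_congr rfl fun i _ => ?_
        rw [map_mul, mul_div_mul_comm]
      rw [h4]
      refine sum_mem fun i _ => ?_
      exact Submodule.smul_mem N (⟨_, ha i⟩ : A) (hX _ (DirectSum.decompose 𝒜 (c i) n).2)
    | zero => rw [smul_zero]; exact zero_mem _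
    | add x y _ _ hx hy => rw [smul_add]; exact add_mem hx hy
    | smul c x _ hx =>
      rw [smul_comm]
      exact Submodule.smul_mem _ c hx
  have hint : IsIntegral A (ev s / f) := isIntegral_of_smul_mem_submodule N hN0 hNfg _ hmul
  obtain ⟨w, hw⟩ := IsIntegrallyClosed.isIntegral_iff.1 hint
  rw [← hw]
  exact w.2

/-- Open subschemes of projective varieties with forms of degree one without common zeros which are
boundary functions. -/
theorem isResolvable_of_forms {k S K : Type} [Field k] [CommRing S] [IsDomain S] [Algebra k S]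
    (𝒜 : ℕ → Submodule k S) [GradedAlgebra 𝒜] (hgen : Algebra.adjoin k (𝒜 1 : Set S) = ⊤)
    (hfg : (𝒜 1).FG)
    [Field K] [Algebra k K] (ev : S →ₐ[k] K) (hev : ∀ n, ∀ s ∈ 𝒜 n, ev s = 0 → s = 0)
    (hK : ∀ z : K, ∃ n, ∃ s ∈ 𝒜 n, ∃ t ∈ 𝒜 n, ev t ≠ 0 ∧ z = ev s / ev t)
    {m : ℕ} (b : Fin m → S) (hb : ∀ i, b i ∈ 𝒜 1)
    {n : ℕ} (hbn : ∀ s ∈ 𝒜 (n + 1), s ∈ Ideal.span (Set.range b))
    {T I : Type} [Finite T] [Fintype I] (M : LM (⊥ : Subalgebra k K) ⊤ T I) (hFr : Frc M)
    (hM : ∀ i, ev (b i) ≠ 0 → IsBr M (ev (b i))) (h1 : 𝒜 1 ≠ ⊥)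
    (U : (Proj 𝒜).Opens) (hU : (U : Set (Proj 𝒜)).Nonempty) :
    IsResolvableVariety (X := U.toScheme) (U.ι ≫ str 𝒜) := by
  classical
  let ι : Type := {i : Fin m // ev (b i) ≠ 0}
  have hι : Nonempty ι := by
    by_contra hcon
    rw [not_nonempty_iff] at hcon
    have hb0 : ∀ i, b i = 0 := by
      intro i
      by_contra h0
      exact hcon.false ⟨i, fun h => h0 (hev 1 _ (hb i) h)⟩
    obtain ⟨u, hu, hu0⟩ := (Submodule.ne_bot_iff _).1 h1
    have h2 := hbn (u ^ (n + 1)) (by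
      have h3 := SetLike.pow_mem_graded (n + 1) hu
      rwa [smul_eq_mul, mul_one] at h3)
    have h4 : Ideal.span (Set.range b) = ⊥ := by
      rw [Ideal.span_eq_bot]
      rintro _ ⟨i, rfl⟩
      exact hb0 i
    rw [h4, Ideal.mem_bot] at h2
    exact hu0 (pow_eq_zero_iff (Nat.succ_ne_zero n) |>.1 h2)
  obtain ⟨T', I', hT', hI', M', hnorm, hcharts⟩ := exists_chart_model' M hFr
    (fun i : ι => ev (b i.1)) (fun i => hM i.1 i.2)
  obtain ⟨P, hP⟩ := exists_spm M'
  obtain ⟨π, hπ, hsm, U0, hU0, hiso⟩ := exists_res' 𝒜 ev hev hgen (fun f hf hf0 z => by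
    obtain ⟨n, s, hs, t, ht, ht0, rfl⟩ := hK z
    refine ⟨ev s / ev f ^ n, ev_div_mem 𝒜 ev f hf0 n s (le_pow 𝒜 hgen n hs), ev t / ev f ^ n,
      ev_div_mem 𝒜 ev f hf0 n t (le_pow 𝒜 hgen n ht), div_ne_zero ht0 (pow_ne_zero n hf0), ?_⟩
    rw [div_div_div_cancel_right₀ (pow_ne_zero n hf0)]) P (fun j => by
    obtain ⟨t, ht⟩ := hP j
    obtain ⟨a, ha⟩ := hcharts t
    refine ⟨b a.1, hb a.1, a.2, fun s hs => ht ?_⟩
    obtain ⟨hic, hfrac⟩ := hnorm t
    refine forms_mem 𝒜 hgen hfg ev b hb hbn (M'.A t) hic hfrac a.1 a.2 (fun i => ?_) s hs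
    by_cases h : ev (b i) = 0
    · rw [h, zero_div]
      exact Subalgebra.zero_mem _
    · exact ha ⟨i, h⟩)
  have hint : IsIntegral (Proj 𝒜) := by
    obtain ⟨i⟩ := hι
    exact proj_integral 𝒜 one_ne_zero (b i.1) (hb i.1) (fun h => i.2 (by rw [h, map_zero]))
  have hY := P.int
  have hUne : Nonempty U.toScheme := ⟨⟨hU.some, hU.some_mem⟩⟩
  have hUint : IsIntegral U.toScheme := isIntegral_of_isOpenImmersion U.ι
  have hft := finiteType_zero 𝒜 hgen hfg
  have hiso0 := isIso_zero 𝒜 hgen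
  have hprop : IsProper (Proj.toSpecZero 𝒜) := inferInstance
  have hsep : IsSeparated (str 𝒜) := isSeparated_str 𝒜
  have hlft : LocallyOfFiniteType (str 𝒜) := by
    unfold str
    infer_instance
  have hqc : QuasiCompact (str 𝒜) := by
    unfold str
    infer_instance
  have hnoeth : IsLocallyNoetherian (Proj 𝒜) := LocallyOfFiniteType.isLocallyNoetherian (str 𝒜)
  refine ⟨⟨hUint, inferInstance, inferInstance, inferInstance⟩, ?_⟩
  exact restrict_resolution π hπ (str 𝒜) hsm U0 hU0 hiso U hU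

end Pool.Agent.N762.FP
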