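import Pool.Agent.N762.RC2.UFin

/-!
Models of extensions `K` of a field `L` with models which are generated by elements with equations
of bounded degree, in powers of the generators with exponents powers of the characteristic, over a
subfield `E` of `L`: the coefficients of the polynomials are in `E`.
-/

set_option autoImplicit false
set_option linter.unusedVariables false
set_option linter.unusedSimpArgs false
set_option linter.unusedSectionVars false

universe u

open Polynomial Pool.Agent.W558 Pool.Agent.W498.Tor Pool.Agent.W418.LCI Pool.Agent.N98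
  Pool.Agent.N762.RC

namespace Pool.Agent.N762.FP

section rel

variable (p : ℕ) [Fact p.Prime] (E : Type u) [Field E] [CharP E p] (L : Type u) [Field L]
  [Algebra E L]

/-- The value, in terms of the first variable. -/
lemma ev_fse2 {n : ℕ} {K : Type u} [Field K] [Algebra L K] [Algebra E K] [IsScalarTower E L K]
    (x : Fin (n + 1) → K) (e : ℕ) (ε : Fin (n + 1) → ℕ) (P : MvPolynomial (Fin (n + 1)) E) :
    (MvPolynomial.finSuccEquiv E n P).eval₂
      ((algebraMap (LF (E := L) x) K).comp (ev p (tl L x) e (ε ∘ Fin.succ))) (x 0 ^ p ^ ε 0) =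
      ev p x e ε P := by
  have h : (Polynomial.eval₂RingHom
      ((algebraMap (LF (E := L) x) K).comp (ev p (tl L x) e (ε ∘ Fin.succ) :
        MvPolynomial (Fin n) E →+* LF (E := L) x)) (x 0 ^ p ^ ε 0)).comp
      ((MvPolynomial.finSuccEquiv E n) : MvPolynomial (Fin (n + 1)) E →+*
        (MvPolynomial (Fin n) E)[X]) = ev p x e ε := by
    apply MvPolynomial.ringHom_ext
    · intro a
      have h1 : MvPolynomial.finSuccEquiv E n (MvPolynomial.C a) =
          Polynomial.C (MvPolynomial.C a) := (MvPolynomial.finSuccEquiv E n).commutes a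
      rw [RingHom.comp_apply, RingHom.coe_coe, h1, Polynomial.coe_eval₂RingHom,
        Polynomial.eval₂_C, RingHom.comp_apply, ev_C, ev_C]
      rfl
    · intro i
      rw [RingHom.comp_apply, RingHom.coe_coe, ev_X, Polynomial.coe_eval₂RingHom]
      refine Fin.cases ?_ (fun i => ?_) i
      · rw [MvPolynomial.finSuccEquiv_X_zero, Polynomial.eval₂_X]
      · rw [MvPolynomial.finSuccEquiv_X_succ, Polynomial.eval₂_C, RingHom.comp_apply, ev_X]
        rfl
  exact congrArg (fun f : MvPolynomial (Fin (n + 1)) E →+* K => f P) h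

/-- Each coordinate is transcendental over the field generated over `L` by the following ones, or
it is a zero of a twisted polynomial over `E` of degree at most `D` with coefficients in the
following coordinates. -/
def Rel2 (D e : ℕ) : (n : ℕ) → (Fin n → ℕ) → (K : Type u) → [Field K] → [Algebra L K] →
    [Algebra E K] → [IsScalarTower E L K] → (Fin n → K) → Prop
  | 0, _, _, _, _, _, _, _ => True
  | n + 1, ε, K, _, _, _, _, x =>
    (Transcendental (LF (E := L) x) (x 0) ∨ ∃ G : (MvPolynomial (Fin n) E)[X], TD D G ∧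
      G.map (ev p (tl L x) e (ε ∘ Fin.succ)) ≠ 0 ∧
      G.eval₂ ((algebraMap (LF (E := L) x) K).comp (ev p (tl L x) e (ε ∘ Fin.succ)))
        (x 0 ^ p ^ ε 0) = 0) ∧
    Rel2 D e n (ε ∘ Fin.succ) (LF (E := L) x) (tl L x)

lemma Rel2.mono {D D' e : ℕ} (h : D ≤ D') : ∀ (n : ℕ) (ε : Fin n → ℕ) (K : Type u) [Field K]
    [Algebra L K] [Algebra E K] [IsScalarTower E L K] (x : Fin n → K), Rel2 p E L D e n ε K x →
    Rel2 p E L D' e n ε K x := by
  intro n
  induction n with
  | zero => intro ε K _ _ _ _ x _; trivial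
  | succ n ih =>
    rintro ε K _ _ _ _ x ⟨h1, h2⟩
    refine ⟨h1.imp id ?_, ih _ _ _ h2⟩
    rintro ⟨G, hG, hG'⟩
    exact ⟨G, fun i hi => (hG i hi).trans h, hG'⟩

lemma Rel2.shift {D e c : ℕ} (hc : c ≤ e) : ∀ (n : ℕ) (ε : Fin n → ℕ) (K : Type u) [Field K]
    [Algebra L K] [Algebra E K] [IsScalarTower E L K] (x : Fin n → K), (∀ i, c ≤ ε i) →
      Rel2 p E L D e n ε K x → Rel2 p E L D (e - c) n (fun i => ε i - c) K x := by
  intro n
  induction n with
  | zero => intro ε K _ _ _ _ x _ _; trivial
  | succ n ih =>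
    rintro ε K _ _ _ _ x hε ⟨h1, h2⟩
    have hK : CharP K p := charP_of_injective_algebraMap (algebraMap E K).injective p
    have key : ∀ P : MvPolynomial (Fin n) E, ev p (tl L x) e (ε ∘ Fin.succ) P =
        (ev p (tl L x) (e - c) ((fun i => ε i - c) ∘ Fin.succ) P) ^ p ^ c := fun P =>
      ev_shift p (tl L x) e (ε ∘ Fin.succ) c hc (fun i => hε _) P
    refine ⟨h1.imp id ?_, ih _ _ _ (fun i => hε _) h2⟩
    rintro ⟨G, hG, hG0, hG1⟩
    refine ⟨G, hG, ?_, ?_⟩
    · intro h
      apply hG0
      ext j
      have h3 := congrArg (fun Q => Q.coeff j) h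
      simp only [coeff_map, coeff_zero] at h3
      rw [coeff_map, key, h3, coeff_zero, zero_pow (pow_ne_zero _ (Fact.out : p.Prime).ne_zero)]
    · set f' : MvPolynomial (Fin n) E →+* K := (algebraMap (LF (E := L) x) K).comp
        (ev p (tl L x) (e - c) ((fun i => ε i - c) ∘ Fin.succ)) with hf'
      have h4 : (iterateFrobenius K p c).comp f' = (algebraMap (LF (E := L) x) K).comp
          (ev p (tl L x) e (ε ∘ Fin.succ) : MvPolynomial (Fin n) E →+* _) := by
        apply RingHom.ext
        intro P
        rw [RingHom.comp_apply, RingHom.comp_apply, RingHom.comp_apply, iterateFrobenius_def,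
          key, map_pow]
      have h5 := hom_eval₂ G f' (iterateFrobenius K p c) (x 0 ^ p ^ (ε 0 - c))
      rw [h4, iterateFrobenius_def, iterateFrobenius_def, ← pow_mul, ← pow_add,
        Nat.sub_add_cancel (hε 0), hG1] at h5
      exact eq_zero_of_pow_eq_zero h5

end rel

section main

variable (p : ℕ) [Fact p.Prime] (k E L : Type u) [Field k] [Field E] [Field L] [CharP E p]
  [Algebra k L] [Algebra E L]

/-- The field `L` has models on which given elements of `E` and the fixed elements `c i` of `L` are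
boundary functions. -/
def Base (C : Type) (c : C → L) : Prop :=
  ∀ (B : Type) [Finite B] (b : B → E), (∀ i, b i ≠ 0) →
    ∃ (T I : Type) (_ : Finite T) (_ : Fintype I) (M : LM (⊥ : Subalgebra k L) ⊤ T I),
      Frc M ∧ (∀ i, IsBr M (algebraMap E L (b i))) ∧ ∀ i, IsBr M (c i)

/-- **Families of twisted polynomials of bounded degree.** -/
theorem main2 {C : Type} [Finite C] (c : C → L) (hc : ∀ i, c i ≠ 0) (hL : Base k E L C c) :
    ∀ (n D : ℕ), 1 ≤ D →
    (n ≠ 0 → ((Nat.factorial (D ^ 2 ^ (n - 1)) : ℕ) : k) ≠ 0) →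
    ∀ (e : ℕ) (ε : Fin n → ℕ), Monotone ε → (∀ i, ε i ≤ e) →
    ∀ (K : Type u) [Field K] [Algebra L K] [Algebra E K] [IsScalarTower E L K] [Algebra k K]
      [IsScalarTower k L K] (x : Fin n → K),
    IntermediateField.adjoin L (Set.range x) = ⊤ → Rel2 p E L D e n ε K x →
      Mdl (E := E) k (ev p x e ε) D (Sum.elim (fun i => algebraMap L K (c i))
        (fun i : {i : Fin n // x i ≠ 0} => x i)) := by
  classical
  intro n
  induction n with
  | zero =>
    intro D hD _ e ε _ _ K _ _ _ _ _ _ x htop _ B _ P hP hdeg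
    have hPC : ∀ b, P b = MvPolynomial.C ((P b).coeff 0) := fun b =>
      MvPolynomial.eq_C_of_isEmpty _
    have h0 : ∀ b, (P b).coeff 0 ≠ 0 := by
      intro b h
      apply hP b
      rw [hPC b, h, map_zero, map_zero]
    obtain ⟨T, I, hT, hI, M, hfr, hF, hFc⟩ := hL B (fun b => (P b).coeff 0 ^ p ^ e)
      (fun b => pow_ne_zero _ (h0 b))
    have hsurj : ∀ y : K, ∃ e : L, algebraMap L K e = y := by
      intro y
      have hy : y ∈ IntermediateField.adjoin L (Set.range x) := by rw [htop]; trivial
      have : Set.range x = ∅ := Set.range_eq_empty x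
      rw [this, IntermediateField.adjoin_empty, IntermediateField.mem_bot] at hy
      exact hy
    refine ⟨T, I, hT, hI, mapLM M, ?_, ?_, ?_⟩
    · intro t y
      obtain ⟨e, rfl⟩ := hsurj y
      obtain ⟨a, ha, b, hb, hb0, rfl⟩ := hfr t e
      exact ⟨algebraMap L K a, ⟨a, ha, rfl⟩, algebraMap L K b, ⟨b, hb, rfl⟩,
        (_root_.map_ne_zero _).2 hb0, by rw [map_mul, map_inv₀]⟩
    · intro b
      have e1 : ev p x e ε (P b) = algebraMap L K (algebraMap E L ((P b).coeff 0 ^ p ^ e)) := by
        conv_lhs => rw [hPC b]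
        rw [ev_C, IsScalarTower.algebraMap_apply E L K]
      rw [e1]
      exact isBr_map (hF b)
    · rintro (i | ⟨i, -⟩)
      · exact isBr_map (hFc i)
      · exact i.elim0
  | succ n ih =>
    intro D hD hchar e ε hmono hle K _ _ _ _ _ _ x htop hrel B _ P hP hdeg
    have hchar' := hchar (Nat.succ_ne_zero n)
    rw [Nat.add_sub_cancel] at hchar'
    have hleD : D ≤ D ^ 2 ^ n := Nat.le_self_pow (by positivity) D
    have hleD2 : D ≤ D ^ 2 := Nat.le_self_pow (by norm_num) D
    have hDf : ((Nat.factorial D : ℕ) : k) ≠ 0 := by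
      intro h
      apply hchar'
      obtain ⟨m, hm⟩ := Nat.factorial_dvd_factorial hleD
      rw [hm, Nat.cast_mul, h, zero_mul]
    let c0 := ε 0
    have hc0 : ∀ i, c0 ≤ ε i := fun i => hmono (Fin.zero_le i)
    have hce : c0 ≤ e := hle 0
    let e' := e - c0
    let ε' : Fin (n + 1) → ℕ := fun i => ε i - c0
    have hrel' : Rel2 p E L D e' (n + 1) ε' K x := Rel2.shift p E L hce (n + 1) ε K x hc0 hrel
    obtain ⟨hr1, hr2⟩ := hrel'
    let L' := LF (E := L) x
    have hs1 : IsScalarTower k L L' := IsScalarTower.of_algebraMap_eq fun r =>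
      Subtype.ext (IsScalarTower.algebraMap_apply k L K r)
    have hs2 : IsScalarTower k L' K := IsScalarTower.of_algebraMap_eq fun r => rfl
    let φ : MvPolynomial (Fin n) E →+* L' := ev p (tl L x) e' (ε' ∘ Fin.succ)
    have hx0 : x 0 ^ p ^ ε' 0 = x 0 := by
      change x 0 ^ p ^ (ε 0 - ε 0) = x 0
      rw [Nat.sub_self, pow_zero, pow_one]
    have hev : ∀ G : (MvPolynomial (Fin n) E)[X], aeval (x 0) (G.map φ) =
        G.eval₂ ((algebraMap L' K).comp φ) (x 0 ^ p ^ ε' 0) := by
      intro G
      rw [hx0, aeval_def, eval₂_map]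
    have hevP : ∀ b, aeval (x 0) ((MvPolynomial.finSuccEquiv E n (P b)).map φ) =
        ev p x e' ε' (P b) := by
      intro b
      rw [hev]
      exact ev_fse2 p E L x e' ε' (P b)
    have hsh : ∀ b, ev p x e ε (P b) = (ev p x e' ε' (P b)) ^ p ^ c0 := fun b =>
      ev_shift p x e ε c0 hce hc0 (P b)
    have hih : Mdl k φ (D ^ 2) (Sum.elim (fun i => algebraMap L L' (c i))
        (fun i : {i : Fin n // tl L x i ≠ 0} => tl L x i)) :=
      ih (D ^ 2) (Nat.one_le_pow _ _ hD) (by
        intro hn
        obtain ⟨m, rfl⟩ := Nat.exists_eq_succ_of_ne_zero hn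
        rw [Nat.succ_eq_add_one, Nat.add_sub_cancel, ← pow_mul, ← pow_succ']
        exact hchar') e' (ε' ∘ Fin.succ)
        (fun i j hij => Nat.sub_le_sub_right (hmono (Fin.succ_le_succ_iff.2 hij)) _)
        (fun i => Nat.sub_le_sub_right (hle _) _) L' (tl L x) (tl_top x)
        (Rel2.mono p E L hleD2 _ _ _ _ hr2)
    let P' : Option B → MvPolynomial (Fin (n + 1)) E := fun o =>
      o.elim (if x 0 = 0 then 1 else MvPolynomial.X 0) P
    have hP' : ∀ o, ev p x e' ε' (P' o) ≠ 0 := by
      rintro (_ | b)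
      · change ev p x e' ε' (if x 0 = 0 then 1 else MvPolynomial.X 0) ≠ 0
        split_ifs with h0
        · rw [map_one]
          exact one_ne_zero
        · rw [ev_X, hx0]
          exact h0
      · intro h
        apply hP b
        rw [hsh]
        change (ev p x e' ε' (P' (some b))) ^ p ^ c0 = 0
        rw [h, zero_pow (pow_ne_zero _ (Fact.out : p.Prime).ne_zero)]
    have hdeg' : ∀ o, (P' o).totalDegree ≤ D := by
      rintro (_ | b)
      · change (if x 0 = 0 then (1 : MvPolynomial (Fin (n + 1)) E)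
          else MvPolynomial.X 0).totalDegree ≤ D
        split_ifs with h0
        · rw [MvPolynomial.totalDegree_one]
          exact Nat.zero_le _
        · rw [MvPolynomial.totalDegree_X]
          exact hD
      · exact hdeg b
    have hevP' : ∀ o, aeval (x 0) ((MvPolynomial.finSuccEquiv E n (P' o)).map φ) =
        ev p x e' ε' (P' o) := by
      intro o
      rw [hev]
      exact ev_fse2 p E L x e' ε' (P' o)
    obtain ⟨T, I, hT, hI, M, hFr, hMb, hMc⟩ := step φ D
      (Sum.elim (fun i => algebraMap L L' (c i))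
        (fun i : {i : Fin n // tl L x i ≠ 0} => tl L x i))
      (by
        rintro (i | i)
        · exact (_root_.map_ne_zero _).2 (hc i)
        · exact i.2) hih hDf hD
      (fun o => MvPolynomial.finSuccEquiv E n (P' o))
      (fun o i hi =>
        (MvPolynomial.totalDegree_coeff_finSuccEquiv_add_le (P' o) i hi).trans (hdeg' o))
      (x 0) (hd_top htop)
      (fun o => by
        rw [hevP']
        exact hP' o)
      (hr1.imp id (by
        rintro ⟨G, hG, hG0, hG1⟩
        refine ⟨G, hG, hG0, ?_⟩
        rw [hev]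
        exact hG1))
    refine ⟨T, I, hT, hI, M, hFr, fun b => ?_, ?_⟩
    · rw [hsh, ← hevP]
      exact (hMb (some b)).pow _
    · rintro (i | ⟨i, hi⟩)
      · exact hMc (Sum.inl i)
      · revert hi
        refine Fin.cases ?_ (fun i => ?_) i
        · intro h0
          have h1 := hMb none
          rw [hevP'] at h1
          change IsBr M (ev p x e' ε' (if x 0 = 0 then 1 else MvPolynomial.X 0)) at h1
          rw [if_neg h0, ev_X, hx0] at h1
          exact h1
        · intro hi
          exact hMc (Sum.inr ⟨i, fun h => hi (congrArg Subtype.val h)⟩)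

end main

end Pool.Agent.N762.FP
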