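import Pool.Agent.N762.FP.FFin

/-!
The product of two models.
-/

set_option autoImplicit false
set_option linter.unusedVariables false
set_option linter.unusedSimpArgs false
set_option linter.unusedSectionVars false

universe u

open scoped TensorProduct

open Pool.Agent.W558 Pool.Agent.W498.Tor Pool.Agent.W418.LCI Pool.Agent.N98
  Pool.Agent.N762.RC

namespace Pool.Agent.N762.FP

section sub

variable {k K1 K2 K : Type u} [Field k] [Field K1] [Field K2] [Field K] [Algebra k K1]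
  [Algebra k K2] [Algebra k K] (ι₁ : K1 →ₐ[k] K) (ι₂ : K2 →ₐ[k] K)

/-- The homomorphism from the tensor product of two subalgebras. -/
noncomputable def pj (A1 : Subalgebra k K1) (A2 : Subalgebra k K2) : A1 ⊗[k] A2 →ₐ[k] K :=
  Algebra.TensorProduct.productMap (ι₁.comp A1.val) (ι₂.comp A2.val)

lemma pj_tmul (A1 : Subalgebra k K1) (A2 : Subalgebra k K2) (a : A1) (b : A2) :
    pj ι₁ ι₂ A1 A2 (a ⊗ₜ b) = ι₁ a * ι₂ b := by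
  unfold pj
  rw [Algebra.TensorProduct.productMap_apply_tmul]
  rfl

/-- The subalgebra generated by two subalgebras. -/
noncomputable def pA (A1 : Subalgebra k K1) (A2 : Subalgebra k K2) : Subalgebra k K :=
  (pj ι₁ ι₂ A1 A2).range

variable {A1 : Subalgebra k K1} {A2 : Subalgebra k K2}

lemma mem_pA1 {a : K1} (ha : a ∈ A1) : ι₁ a ∈ pA ι₁ ι₂ A1 A2 :=
  ⟨(⟨a, ha⟩ : A1) ⊗ₜ (1 : A2), by
    change pj ι₁ ι₂ A1 A2 _ = _
    rw [pj_tmul, OneMemClass.coe_one, map_one, mul_one]⟩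

lemma mem_pA2 {b : K2} (hb : b ∈ A2) : ι₂ b ∈ pA ι₁ ι₂ A1 A2 :=
  ⟨(1 : A1) ⊗ₜ (⟨b, hb⟩ : A2), by
    change pj ι₁ ι₂ A1 A2 _ = _
    rw [pj_tmul, OneMemClass.coe_one, map_one, one_mul]⟩

lemma pA_ind {Q : K → Prop} (h0 : Q 0) (hadd : ∀ x y, Q x → Q y → Q (x + y))
    (hm : ∀ a ∈ A1, ∀ b ∈ A2, Q (ι₁ a * ι₂ b)) {f : K} (hf : f ∈ pA ι₁ ι₂ A1 A2) : Q f := by
  obtain ⟨x, rfl⟩ := hf
  change Q (pj ι₁ ι₂ A1 A2 x)
  induction x using TensorProduct.induction_on with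
  | zero => rw [map_zero]; exact h0
  | tmul a b => rw [pj_tmul]; exact hm a a.2 b b.2
  | add x y hx hy => rw [map_add]; exact hadd _ _ hx hy

variable (hinj : Function.Injective (Algebra.TensorProduct.productMap ι₁ ι₂))

include hinj in
lemma pj_inj : Function.Injective (pj ι₁ ι₂ A1 A2) := by
  have h1 : pj ι₁ ι₂ A1 A2 = (Algebra.TensorProduct.productMap ι₁ ι₂).comp
      (Algebra.TensorProduct.map A1.val A2.val) := by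
    apply Algebra.TensorProduct.ext'
    intro a b
    rw [pj_tmul, AlgHom.comp_apply, Algebra.TensorProduct.map_tmul,
      Algebra.TensorProduct.productMap_apply_tmul]
    rfl
  rw [h1]
  refine hinj.comp ?_
  exact TensorProduct.map_injective_of_flat_flat A1.val.toLinearMap A2.val.toLinearMap
    Subtype.val_injective Subtype.val_injective

/-- The isomorphism with the tensor product. -/
noncomputable def pe : (A1 ⊗[k] A2) ≃ₐ[k] pA ι₁ ι₂ A1 A2 :=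
  AlgEquiv.ofInjective (pj ι₁ ι₂ A1 A2) (pj_inj ι₁ ι₂ hinj)

lemma pe_coe (x : A1 ⊗[k] A2) : ((pe (A1 := A1) (A2 := A2) ι₁ ι₂ hinj x : pA ι₁ ι₂ A1 A2) : K) =
    pj ι₁ ι₂ A1 A2 x := rfl

include hinj in
lemma smooth_pA (h1 : Algebra.Smooth k A1) (h2 : Algebra.Smooth k A2) :
    Algebra.Smooth k (pA ι₁ ι₂ A1 A2) := by
  have h3 : Algebra.Smooth A1 (A1 ⊗[k] A2) := inferInstance
  have h4 : Algebra.Smooth k (A1 ⊗[k] A2) := Algebra.Smooth.comp k A1 (A1 ⊗[k] A2)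
  exact Algebra.Smooth.of_equiv (pe ι₁ ι₂ hinj)

include hinj in
/-- The tangent vector on the product. -/
theorem exists_TV {κ : Type u} [Field κ] [Algebra k κ] (φ : pA ι₁ ι₂ A1 A2 →ₐ[k] κ)
    (φ1 : A1 →ₐ[k] κ) (hφ1 : ∀ a, φ1 a = φ ⟨ι₁ a, mem_pA1 ι₁ ι₂ a.2⟩)
    (φ2 : A2 →ₐ[k] κ) (hφ2 : ∀ b, φ2 b = φ ⟨ι₂ b, mem_pA2 ι₁ ι₂ b.2⟩)
    (D1 : TV φ1) (D2 : TV φ2) :
    ∃ D : TV φ, (∀ a : A1, D.D ⟨ι₁ a, mem_pA1 ι₁ ι₂ a.2⟩ = D1.D a) ∧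
      ∀ b : A2, D.D ⟨ι₂ b, mem_pA2 ι₁ ι₂ b.2⟩ = D2.D b := by
  let ψ0 : A1 ⊗[k] A2 →ₐ[k] TrivSqZeroExt κ κ :=
    Algebra.TensorProduct.productMap D1.dual D2.dual
  let e := pe (A1 := A1) (A2 := A2) ι₁ ι₂ hinj
  let ψ : pA ι₁ ι₂ A1 A2 →ₐ[k] TrivSqZeroExt κ κ := ψ0.comp (e.symm : _ →ₐ[k] _)
  have he1 : ∀ a : A1, e (a ⊗ₜ 1) = ⟨ι₁ a, mem_pA1 ι₁ ι₂ a.2⟩ := by
    intro a
    apply Subtype.ext
    rw [pe_coe, pj_tmul, OneMemClass.coe_one, map_one, mul_one]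
  have he2 : ∀ b : A2, e (1 ⊗ₜ b) = ⟨ι₂ b, mem_pA2 ι₁ ι₂ b.2⟩ := by
    intro b
    apply Subtype.ext
    rw [pe_coe, pj_tmul, OneMemClass.coe_one, map_one, one_mul]
  have hψ1 : ∀ a : A1, ψ ⟨ι₁ a, mem_pA1 ι₁ ι₂ a.2⟩ = D1.dual a := by
    intro a
    change ψ0 (e.symm _) = _
    rw [← he1, AlgEquiv.symm_apply_apply]
    change Algebra.TensorProduct.productMap D1.dual D2.dual (a ⊗ₜ 1) = _
    rw [Algebra.TensorProduct.productMap_apply_tmul, map_one, mul_one]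
  have hψ2 : ∀ b : A2, ψ ⟨ι₂ b, mem_pA2 ι₁ ι₂ b.2⟩ = D2.dual b := by
    intro b
    change ψ0 (e.symm _) = _
    rw [← he2, AlgEquiv.symm_apply_apply]
    change Algebra.TensorProduct.productMap D1.dual D2.dual (1 ⊗ₜ b) = _
    rw [Algebra.TensorProduct.productMap_apply_tmul, map_one, one_mul]
  have hfst : ∀ f : pA ι₁ ι₂ A1 A2, (ψ f).fst = φ f := by
    have h1 : (TrivSqZeroExt.fstHom k κ κ).comp ψ0 = φ.comp (e : _ →ₐ[k] _) := by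
      apply Algebra.TensorProduct.ext'
      intro a b
      change (Algebra.TensorProduct.productMap D1.dual D2.dual (a ⊗ₜ b)).fst = φ (e (a ⊗ₜ b))
      have h2 : e (a ⊗ₜ b) = ⟨ι₁ a, mem_pA1 ι₁ ι₂ a.2⟩ * ⟨ι₂ b, mem_pA2 ι₁ ι₂ b.2⟩ := by
        apply Subtype.ext
        rw [pe_coe, pj_tmul]
        rfl
      rw [Algebra.TensorProduct.productMap_apply_tmul, TrivSqZeroExt.fst_mul, TV.dual_fst,
        TV.dual_fst, h2, map_mul, hφ1, hφ2]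
    intro f
    have h3 := congrArg (fun g : A1 ⊗[k] A2 →ₐ[k] κ => g (e.symm f)) h1
    change (ψ0 (e.symm f)).fst = φ (e (e.symm f)) at h3
    rw [AlgEquiv.apply_symm_apply] at h3
    exact h3
  refine ⟨TV.ofDual φ ψ hfst, fun a => ?_, fun b => ?_⟩
  · rw [TV.ofDual_D, hψ1, TV.dual_snd]
  · rw [TV.ofDual_D, hψ2, TV.dual_snd]

include hinj in
/-- Normal crossings on the product. -/
theorem snc_pA {I1 I2 : Type} {x1 : I1 → K1} {x2 : I2 → K2} (hx1 : ∀ i, x1 i ∈ A1)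
    (hx2 : ∀ i, x2 i ∈ A2) (h1 : SNC A1 x1) (h2 : SNC A2 x2) :
    SNC (pA ι₁ ι₂ A1 A2) (Sum.elim (fun i => ι₁ (x1 i)) fun i => ι₂ (x2 i)) := by
  intro κ _ _ φ i hi hφi
  let j1 : A1 →ₐ[k] pA ι₁ ι₂ A1 A2 := (ι₁.comp A1.val).codRestrict _ fun a =>
    mem_pA1 ι₁ ι₂ a.2
  let j2 : A2 →ₐ[k] pA ι₁ ι₂ A1 A2 := (ι₂.comp A2.val).codRestrict _ fun a =>
    mem_pA2 ι₁ ι₂ a.2
  let φ1 : A1 →ₐ[k] κ := φ.comp j1
  let φ2 : A2 →ₐ[k] κ := φ.comp j2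
  have hφ1 : ∀ a, φ1 a = φ ⟨ι₁ a, mem_pA1 ι₁ ι₂ a.2⟩ := fun a => rfl
  have hφ2 : ∀ b, φ2 b = φ ⟨ι₂ b, mem_pA2 ι₁ ι₂ b.2⟩ := fun b => rfl
  rcases i with i | i
  · obtain ⟨D1, hD1, hD1'⟩ := h1 κ φ1 i (hx1 i) hφi
    obtain ⟨D, hDa, hDb⟩ := exists_TV ι₁ ι₂ hinj φ φ1 hφ1 φ2 hφ2 D1 (TV.zero φ2)
    refine ⟨D, (hDa ⟨x1 i, hx1 i⟩).trans hD1, ?_⟩
    rintro (j | j) hj hji hφj
    · exact (hDa ⟨x1 j, hx1 j⟩).trans (hD1' j (hx1 j) (fun h => hji (congrArg Sum.inl h)) hφj)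
    · exact hDb ⟨x2 j, hx2 j⟩
  · obtain ⟨D2, hD2, hD2'⟩ := h2 κ φ2 i (hx2 i) hφi
    obtain ⟨D, hDa, hDb⟩ := exists_TV ι₁ ι₂ hinj φ φ1 hφ1 φ2 hφ2 (TV.zero φ1) D2
    refine ⟨D, (hDb ⟨x2 i, hx2 i⟩).trans hD2, ?_⟩
    rintro (j | j) hj hji hφj
    · exact hDa ⟨x1 j, hx1 j⟩
    · exact (hDb ⟨x2 j, hx2 j⟩).trans (hD2' j (hx2 j) (fun h => hji (congrArg Sum.inr h)) hφj)

end sub

section model

variable {k K1 K2 K : Type u} [Field k] [Field K1] [Field K2] [Field K] [Algebra k K1]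
  [Algebra k K2] [Algebra k K] (ι₁ : K1 →ₐ[k] K) (ι₂ : K2 →ₐ[k] K)
  (hinj : Function.Injective (Algebra.TensorProduct.productMap ι₁ ι₂))
  {T1 I1 T2 I2 : Type} (M1 : LM (⊥ : Subalgebra k K1) ⊤ T1 I1)
  (M2 : LM (⊥ : Subalgebra k K2) ⊤ T2 I2)

lemma cv_comap {k K1 K : Type u} [Field k] [Field K1] [Field K] [Algebra k K1] [Algebra k K]
    (ι : K1 →ₐ[k] K) {T I : Type} (M : LM (⊥ : Subalgebra k K1) ⊤ T I) (V : ValuationSubring K)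
    (hV : ∀ a ∈ (⊥ : Subalgebra k K), a ∈ V) : ∃ t, ∀ f ∈ M.A t, ι f ∈ V := by
  obtain ⟨t, ht⟩ := M.cv (V.comap (ι : K1 →+* K)) (by
    intro a ha
    rw [Algebra.mem_bot] at ha
    obtain ⟨c, rfl⟩ := ha
    rw [ValuationSubring.mem_comap]
    change ι (algebraMap k K1 c) ∈ V
    rw [ι.commutes]
    exact hV _ (Subalgebra.algebraMap_mem _ c))
  exact ⟨t, fun f hf => ht f hf⟩

/-- The product of two models. -/
noncomputable def pLM : LM (⊥ : Subalgebra k K) ⊤ (T1 × T2) (I1 ⊕ I2) where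
  A t := pA ι₁ ι₂ (M1.A t.1) (M2.A t.2)
  H t := ι₁ (M1.H t.1) * ι₂ (M2.H t.2)
  x t := Sum.elim (fun i => ι₁ (M1.x t.1 i)) fun i => ι₂ (M2.x t.2 i)
  sm t := smooth_pA ι₁ ι₂ hinj (M1.sm t.1) (M2.sm t.2)
  base t := bot_le
  H0 t := mul_ne_zero ((_root_.map_ne_zero _).2 (M1.H0 _)) ((_root_.map_ne_zero _).2 (M2.H0 _))
  HR t := trivial
  rt t t' := by
    rw [mul_div_mul_comm, ← map_div₀, ← map_div₀]
    exact mul_mem (mem_pA1 ι₁ ι₂ (M1.rt _ _)) (mem_pA2 ι₁ ι₂ (M2.rt _ _))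
  gl := by
    intro t t' f hf
    have hrt : (ι₁ (M1.H t'.1) * ι₂ (M2.H t'.2)) / (ι₁ (M1.H t.1) * ι₂ (M2.H t.2)) ∈
        pA ι₁ ι₂ (M1.A t.1) (M2.A t.2) := by
      rw [mul_div_mul_comm, ← map_div₀, ← map_div₀]
      exact mul_mem (mem_pA1 ι₁ ι₂ (M1.rt _ _)) (mem_pA2 ι₁ ι₂ (M2.rt _ _))
    have hmono : ∀ (f : K) (n m : ℕ), n ≤ m →
        ((ι₁ (M1.H t'.1) * ι₂ (M2.H t'.2)) / (ι₁ (M1.H t.1) * ι₂ (M2.H t.2))) ^ n * f ∈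
          pA ι₁ ι₂ (M1.A t.1) (M2.A t.2) →
        ((ι₁ (M1.H t'.1) * ι₂ (M2.H t'.2)) / (ι₁ (M1.H t.1) * ι₂ (M2.H t.2))) ^ m * f ∈
          pA ι₁ ι₂ (M1.A t.1) (M2.A t.2) := by
      intro f n m hnm h
      obtain ⟨c, rfl⟩ := Nat.exists_eq_add_of_le hnm
      rw [add_comm, pow_add, mul_assoc]
      exact mul_mem (pow_mem hrt c) h
    refine pA_ind (Q := fun f => ∃ n : ℕ, ((ι₁ (M1.H t'.1) * ι₂ (M2.H t'.2)) /
      (ι₁ (M1.H t.1) * ι₂ (M2.H t.2))) ^ n * f ∈ pA ι₁ ι₂ (M1.A t.1) (M2.A t.2)) ι₁ ι₂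
      ?_ ?_ ?_ hf
    · exact ⟨0, by rw [mul_zero]; exact zero_mem _⟩
    · rintro f g ⟨n, hn⟩ ⟨m, hm⟩
      refine ⟨max n m, ?_⟩
      rw [mul_add]
      exact add_mem (hmono _ _ _ (le_max_left _ _) hn) (hmono _ _ _ (le_max_right _ _) hm)
    · intro a ha b hb
      obtain ⟨n, hn⟩ := M1.gl t.1 t'.1 a ha
      obtain ⟨m, hm⟩ := M2.gl t.2 t'.2 b hb
      refine ⟨max n m, ?_⟩
      have h1 := mem_pA1 ι₁ ι₂ (A2 := M2.A t.2) (M1.gl_mono (le_max_left n m) hn)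
      have h2 := mem_pA2 ι₁ ι₂ (A1 := M1.A t.1) (M2.gl_mono (le_max_right n m) hm)
      have h3 := mul_mem h1 h2
      rw [mul_div_mul_comm, ← map_div₀, ← map_div₀, mul_pow, ← map_pow, ← map_pow,
        mul_mul_mul_comm, ← map_mul, ← map_mul]
      exact h3
  dn := fun t f hf => ⟨0, trivial⟩
  cv := by
    intro V hV
    obtain ⟨t1, h1⟩ := cv_comap ι₁ M1 V hV
    obtain ⟨t2, h2⟩ := cv_comap ι₂ M2 V hV
    refine ⟨(t1, t2), fun f hf => ?_⟩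
    refine pA_ind (Q := fun f => f ∈ V) ι₁ ι₂ (zero_mem V) (fun x y hx hy => add_mem hx hy)
      (fun a ha b hb => mul_mem (h1 a ha) (h2 b hb)) hf
  xA := by
    rintro t (i | i)
    · exact mem_pA1 ι₁ ι₂ (M1.xA _ _)
    · exact mem_pA2 ι₁ ι₂ (M2.xA _ _)
  x0 := by
    rintro t (i | i)
    · exact (_root_.map_ne_zero _).2 (M1.x0 _ _)
    · exact (_root_.map_ne_zero _).2 (M2.x0 _ _)
  gi := by
    rintro t t' (i | i)
    · obtain ⟨n, hn⟩ := M1.gi t.1 t'.1 i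
      refine ⟨n, ?_⟩
      have h1 := mem_pA1 ι₁ ι₂ (A2 := M2.A t.2) hn
      have h2 := mem_pA2 ι₁ ι₂ (A1 := M1.A t.1) (pow_mem (M2.rt t.2 t'.2) n)
      have h3 := mul_mem h1 h2
      change _ ^ n * (ι₁ _ / ι₁ _) ∈ _
      rw [mul_div_mul_comm, ← map_div₀, ← map_div₀, ← map_div₀, mul_pow, ← map_pow, ← map_pow,
        mul_right_comm, ← map_mul]
      exact h3
    · obtain ⟨n, hn⟩ := M2.gi t.2 t'.2 i
      refine ⟨n, ?_⟩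
      have h1 := mem_pA2 ι₁ ι₂ (A1 := M1.A t.1) hn
      have h2 := mem_pA1 ι₁ ι₂ (A2 := M2.A t.2) (pow_mem (M1.rt t.1 t'.1) n)
      have h3 := mul_mem h2 h1
      change _ ^ n * (ι₂ _ / ι₂ _) ∈ _
      rw [mul_div_mul_comm, ← map_div₀, ← map_div₀, ← map_div₀, mul_pow, ← map_pow, ← map_pow,
        mul_assoc, ← map_mul]
      exact h3
  snc t := snc_pA ι₁ ι₂ hinj (M1.xA t.1) (M2.xA t.2) (M1.snc t.1) (M2.snc t.2)

variable [Fintype I1] [Fintype I2]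

lemma isB_pLM1 {g : K1} (h : IsB M1 g) : IsB (pLM ι₁ ι₂ hinj M1 M2) (ι₁ g) := by
  obtain ⟨γ, h⟩ := h
  refine ⟨Sum.elim γ 0, fun t => ?_⟩
  obtain ⟨w, hw0, hw, hw', h1⟩ := h t.1
  refine ⟨ι₁ w, (_root_.map_ne_zero _).2 hw0, mem_pA1 ι₁ ι₂ hw, ?_, ?_⟩
  · rw [← map_inv₀]
    exact mem_pA1 ι₁ ι₂ hw'
  · rw [h1, map_mul, map_prod, Fintype.prod_sum_type]
    have h2 : ∏ i : I2, (pLM ι₁ ι₂ hinj M1 M2).x t (Sum.inr i) ^ (Sum.elim γ (0 : I2 → ℤ))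
        (Sum.inr i) = 1 := Finset.prod_eq_one fun i _ => zpow_zero _
    rw [h2, mul_one]
    congr 1
    refine Finset.prod_congr rfl fun i _ => ?_
    rw [map_zpow₀]
    rfl

lemma isB_pLM2 {g : K2} (h : IsB M2 g) : IsB (pLM ι₁ ι₂ hinj M1 M2) (ι₂ g) := by
  obtain ⟨γ, h⟩ := h
  refine ⟨Sum.elim 0 γ, fun t => ?_⟩
  obtain ⟨w, hw0, hw, hw', h1⟩ := h t.2
  refine ⟨ι₂ w, (_root_.map_ne_zero _).2 hw0, mem_pA2 ι₁ ι₂ hw, ?_, ?_⟩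
  · rw [← map_inv₀]
    exact mem_pA2 ι₁ ι₂ hw'
  · rw [h1, map_mul, map_prod, Fintype.prod_sum_type]
    have h2 : ∏ i : I1, (pLM ι₁ ι₂ hinj M1 M2).x t (Sum.inl i) ^ (Sum.elim (0 : I1 → ℤ) γ)
        (Sum.inl i) = 1 := Finset.prod_eq_one fun i _ => zpow_zero _
    rw [h2, one_mul]
    congr 1
    refine Finset.prod_congr rfl fun i _ => ?_
    rw [map_zpow₀]
    rfl

lemma isBr_pLM1 {g : K1} (h : IsBr M1 g) : IsBr (pLM ι₁ ι₂ hinj M1 M2) (ι₁ g) := by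
  obtain ⟨N, hN, h⟩ := h
  refine ⟨N, hN, ?_⟩
  rw [← map_pow]
  exact isB_pLM1 ι₁ ι₂ hinj M1 M2 h

lemma isBr_pLM2 {g : K2} (h : IsBr M2 g) : IsBr (pLM ι₁ ι₂ hinj M1 M2) (ι₂ g) := by
  obtain ⟨N, hN, h⟩ := h
  refine ⟨N, hN, ?_⟩
  rw [← map_pow]
  exact isB_pLM2 ι₁ ι₂ hinj M1 M2 h

/-- The quotients. -/
theorem frc_pLM (htop : IntermediateField.adjoin k (Set.range ι₁ ∪ Set.range ι₂) = ⊤)
    (h1 : Frc M1) (h2 : Frc M2) : Frc (pLM ι₁ ι₂ hinj M1 M2) := by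
  intro t z
  have hz : z ∈ IntermediateField.adjoin k (Set.range ι₁ ∪ Set.range ι₂) := by
    rw [htop]
    trivial
  induction hz using IntermediateField.adjoin_induction with
  | mem z hz =>
    rcases hz with ⟨c, rfl⟩ | ⟨c, rfl⟩
    · obtain ⟨a, ha, b, hb, hb0, rfl⟩ := h1 t.1 c
      exact ⟨ι₁ a, mem_pA1 ι₁ ι₂ ha, ι₁ b, mem_pA1 ι₁ ι₂ hb, (_root_.map_ne_zero _).2 hb0,
        by rw [map_mul, map_inv₀]⟩
    · obtain ⟨a, ha, b, hb, hb0, rfl⟩ := h2 t.2 c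
      exact ⟨ι₂ a, mem_pA2 ι₁ ι₂ ha, ι₂ b, mem_pA2 ι₁ ι₂ hb, (_root_.map_ne_zero _).2 hb0,
        by rw [map_mul, map_inv₀]⟩
  | algebraMap c =>
    exact ⟨algebraMap k K c, Subalgebra.algebraMap_mem _ _, 1, one_mem _, one_ne_zero,
      by rw [inv_one, mul_one]⟩
  | add x y _ _ hx hy =>
    obtain ⟨a, ha, b, hb, hb0, rfl⟩ := hx
    obtain ⟨a', ha', b', hb', hb0', rfl⟩ := hy
    refine ⟨a * b' + a' * b, add_mem (mul_mem ha hb') (mul_mem ha' hb), b * b', mul_mem hb hb',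
      mul_ne_zero hb0 hb0', ?_⟩
    field_simp
  | inv x _ hx =>
    obtain ⟨a, ha, b, hb, hb0, rfl⟩ := hx
    by_cases ha0 : a = 0
    · exact ⟨0, zero_mem _, 1, one_mem _, one_ne_zero, by rw [ha0]; simp⟩
    · exact ⟨b, hb, a, ha, ha0, by rw [mul_inv, inv_inv, mul_comm]⟩
  | mul x y _ _ hx hy =>
    obtain ⟨a, ha, b, hb, hb0, rfl⟩ := hx
    obtain ⟨a', ha', b', hb', hb0', rfl⟩ := hy
    exact ⟨a * a', mul_mem ha ha', b * b', mul_mem hb hb', mul_ne_zero hb0 hb0',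
      by rw [mul_inv]; ring⟩

end model

end Pool.Agent.N762.FP
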