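import Pool.Agent.N762.FP.Free

/-!
Models of the extensions `K` of a field `L` with models, which are generated by the coordinates of a
variety of bounded degree over a subfield `E` of `L` which is free from `L` over `E`.
-/

set_option autoImplicit false
set_option linter.unusedVariables false
set_option linter.unusedSimpArgs false
set_option linter.unusedSectionVars false

universe u

open MvPolynomial Pool.Agent.W558 Pool.Agent.W498.Tor Pool.Agent.W418.LCI Pool.Agent.N98
  Pool.Agent.N762.RC Pool.Agent.N762.RC2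

namespace Pool.Agent.N762.FP

section prep

variable {E L K : Type u} [Field E] [Field L] [Field K] [Algebra E L] [Algebra L K] [Algebra E K]
  [IsScalarTower E L K]

lemma adj_top (K2 : IntermediateField E K) {τ τ' : Type*} (y : τ → K2)
    (hy : IntermediateField.adjoin E (Set.range y) = ⊤) (x : τ' → K) (hx : ∀ i, x i ∈ K2)
    (hxt : IntermediateField.adjoin L (Set.range x) = ⊤) :
    IntermediateField.adjoin L (Set.range fun i => (y i : K)) = ⊤ := by
  have h1 : IntermediateField.adjoin E (Set.range y) ≤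
      ((IntermediateField.adjoin L (Set.range fun i => (y i : K))).restrictScalars E).comap
        K2.val := by
    rw [IntermediateField.adjoin_le_iff]
    rintro _ ⟨i, rfl⟩
    change (fun i => (y i : K)) i ∈ IntermediateField.adjoin L (Set.range fun i => (y i : K))
    exact IntermediateField.subset_adjoin L (Set.range fun i => (y i : K)) (Set.mem_range_self i)
  rw [eq_top_iff, ← hxt, IntermediateField.adjoin_le_iff]
  rintro _ ⟨i, rfl⟩
  have h2 : (⟨x i, hx i⟩ : K2) ∈ IntermediateField.adjoin E (Set.range y) := by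
    rw [hy]
    trivial
  exact h1 h2

lemma free_val (K2 : IntermediateField E K) {τ : Type*} (x : τ → K) (hx : ∀ i, x i ∈ K2)
    (hxt : IntermediateField.adjoin L (Set.range x) = ⊤) (d : ℕ)
    (h2 : Algebra.trdeg E K2 = d) (hL : Algebra.trdeg L K = d) : Free L K2.val := by
  refine free_of_trdeg K2.val (fun z => ?_) d h2 hL
  have hz : z ∈ IntermediateField.adjoin L (Set.range K2.val) := by
    have hle : IntermediateField.adjoin L (Set.range x) ≤
        IntermediateField.adjoin L (Set.range K2.val) := by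
      refine IntermediateField.adjoin.mono L _ _ ?_
      rintro _ ⟨i, rfl⟩
      exact ⟨⟨x i, hx i⟩, rfl⟩
    rw [hxt] at hle
    exact hle trivial
  exact isAlgebraic_algebraMap (⟨z, hz⟩ : IntermediateField.adjoin L (Set.range K2.val))

end prep

section main

/-- **The step.** -/
theorem good_step (p : ℕ) [Fact p.Prime] {k F E L K : Type u} [Field k] [CharP k p] [Field F]
    [Field E] [CharP E p] [Field L] [Field K] [Algebra k L] [Algebra E L] [Algebra L K]
    [Algebra E K] [IsScalarTower E L K] [Algebra k K] [IsScalarTower k L K] [Algebra F E]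
    [Algebra.IsAlgebraic F E] [Algebra F K] [IsScalarTower F E K]
    {C : Type} [Finite C] (c : C → L) (hc : ∀ i, c i ≠ 0) (hL : Base k E L C c)
    {N : ℕ} (x : Fin N → K) (ε : Fin N → ℕ) (e : ℕ) (hε : ∀ i, ε i ≤ e)
    (ρ : F →+* E) (hρ : ∀ a, (ρ a) ^ p ^ e = algebraMap F E a)
    (htop : IntermediateField.adjoin L (Set.range x) = ⊤) (d δ C0 : ℕ)
    (htr : Algebra.trdeg E (IntermediateField.adjoin E (Set.range x)) = d)
    (htrL : Algebra.trdeg L K = d)
    (hδ : ∀ t : ℕ, d.factorial * Module.finrank F (img F (fun j => x j ^ p ^ ε j) t) ≤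
      δ * (t + C0) ^ d) (s : ℕ) (hs : 1 ≤ s)
    (hD : (Infinite F ∧ ((Nat.factorial ((s * δ) ^ 2 ^ d) : ℕ) : k) ≠ 0) ∨
      ((Nat.factorial ((max s δ) ^ 2 ^ (N - 1)) : ℕ) : k) ≠ 0)
    (B : Type) [Finite B] (G : B → MvPolynomial (Fin N) F)
    (hG : ∀ b, aeval (fun i => x i ^ p ^ ε i) (G b) ≠ 0) (hdeg : ∀ b, (G b).totalDegree ≤ s)
    (B' : Type) [Finite B'] (b' : B' → E) (hb' : ∀ i, b' i ≠ 0) :
    ∃ (T I : Type) (_ : Finite T) (_ : Fintype I) (M : LM (⊥ : Subalgebra k K) ⊤ T I),
      Frc M ∧ (∀ b, IsBr M (aeval (fun i => x i ^ p ^ ε i) (G b))) ∧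
      (∀ i, IsBr M (algebraMap E K (b' i))) ∧ (∀ i, IsBr M (algebraMap L K (c i))) ∧
      ∀ i, x i ≠ 0 → IsBr M (x i) := by
  classical
  have hp0 : p ≠ 0 := (Fact.out : p.Prime).ne_zero
  have hδ1 : 1 ≤ δ := one_le_of_growth (fun j => x j ^ p ^ ε j) d δ C0 hδ
  let K2 : IntermediateField E K := IntermediateField.adjoin E (Set.range x)
  have hx : ∀ i, x i ∈ K2 := fun i => IntermediateField.subset_adjoin _ _ ⟨i, rfl⟩
  have hst : IsScalarTower F E K2 := IsScalarTower.of_algebraMap_eq fun r =>
    Subtype.ext (IsScalarTower.algebraMap_apply F E K r)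
  let σ := Tuple.sort ε
  let x2 : Fin N → K2 := fun i => ⟨x (σ i), hx (σ i)⟩
  have htop2 : IntermediateField.adjoin E (Set.range x2) = ⊤ := by
    apply IntermediateField.lift_injective K2
    rw [IntermediateField.lift_adjoin, IntermediateField.lift_top, ← Set.range_comp]
    have h1 : (Subtype.val ∘ x2) = x ∘ σ := rfl
    rw [h1, σ.surjective.range_comp]
  have htr2 : Algebra.trdeg F K2 = d := by
    have h1 : Algebra.trdeg F E + Algebra.trdeg E K2 = Algebra.trdeg F K2 := trdeg_add_eq F E
    have h2 : Algebra.trdeg F E = 0 := trdeg_eq_zero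
    rw [h2, zero_add] at h1
    rw [← h1]
    exact htr
  have hδ2 : ∀ t : ℕ, d.factorial *
      Module.finrank F (img F (fun j => x2 j ^ p ^ (ε ∘ σ) j) t) ≤ δ * (t + C0) ^ d := by
    intro t
    rw [finrank_img_val' K2]
    refine le_trans (Nat.mul_le_mul_left _ ?_) (hδ t)
    have hfin : FiniteDimensional F (img F (fun j => x j ^ p ^ ε j) t) := by
      unfold img
      infer_instance
    exact Submodule.finrank_mono (img_le_of_comp (fun j => x j ^ p ^ ε j) σ t)
  have hfree : Free L K2.val := free_val K2 x hx htop d htr htrL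
  rcases hD with ⟨hinf, hD⟩ | hD
  · have hδD : δ ≤ s * δ := Nat.le_mul_of_pos_left δ hs
    have hD1 : 1 ≤ s * δ := hδ1.trans hδD
    have hδp : δ < p := by
      by_contra hcon
      push Not at hcon
      apply hD
      refine (CharP.cast_eq_zero_iff k p _).2 ?_
      refine Nat.dvd_factorial (Fact.out : p.Prime).pos (hcon.trans (hδD.trans ?_))
      exact Nat.le_self_pow (by positivity) _
    obtain ⟨y, η, W, V, hη, hηe, hytop, hyrel, hWδ, hVδ, hW, hV⟩ := proj p x2 (ε ∘ σ) e
      (Tuple.monotone_sort ε) (fun i => hε (σ i)) ρ hρ htop2 d δ C0 htr2 hδ2 hδp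
    let yK : Fin (d + 1) → K := fun i => (y i : K)
    have hyKtop : IntermediateField.adjoin L (Set.range yK) = ⊤ :=
      adj_top K2 y hytop x hx htop
    have hrel2 : Rel2 p E L (s * δ) e (d + 1) η K yK :=
      rel_lift p (s * δ) e (d + 1) η K2 y K yK K2.val (fun i => rfl) hfree
        (Rel.mono p E hδD _ _ _ _ hyrel)
    have hM := main2 p k E L c hc hL (d + 1) (s * δ) hD1
      (fun _ => by rw [Nat.add_sub_cancel]; exact hD) e η hη hηe K yK hyKtop hrel2
    -- values in `K`
    have hval : ∀ g : MvPolynomial (Fin (d + 1)) F,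
        ((aeval (fun i => y i ^ p ^ η i) g : K2) : K) = aeval (fun i => yK i ^ p ^ η i) g := by
      intro g
      have h2 := congrArg (fun f : MvPolynomial (Fin (d + 1)) F →ₐ[F] K => f g)
        (comp_aeval (R := F) (fun i => y i ^ p ^ η i)
          ((K2.val : K2 →ₐ[E] K).restrictScalars F))
      exact h2
    have hW' : aeval (fun i => yK i ^ p ^ η i) W ≠ 0 := by
      rw [← hval]
      intro h
      exact hW (Subtype.ext h)
    have hV' : ∀ j, aeval (fun i => yK i ^ p ^ η i) (V j) +
        aeval (fun i => yK i ^ p ^ η i) W * (x ∘ σ) j ^ p ^ (ε ∘ σ) j = 0 := by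
      intro j
      rw [← hval, ← hval]
      exact congrArg Subtype.val (hV j)
    -- the polynomials
    let Q : B ⊕ {i : Fin N // (x ∘ σ) i ≠ 0} → MvPolynomial (Fin N) F :=
      Sum.elim (fun b => rename σ.symm (G b)) fun i => X i.1
    have hQs : ∀ b, (Q b).totalDegree ≤ s := by
      rintro (b | i)
      · exact (totalDegree_rename_le σ.symm (G b)).trans (hdeg b)
      · exact (totalDegree_X (R := F) i.1).le.trans hs
    have hQb : ∀ b, aeval (fun i => (x ∘ σ) i ^ p ^ (ε ∘ σ) i) (Q (Sum.inl b)) =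
        aeval (fun i => x i ^ p ^ ε i) (G b) := by
      intro b
      change aeval _ (rename σ.symm (G b)) = _
      rw [aeval_rename]
      congr 2
      funext i
      simp only [Function.comp_apply, Equiv.apply_symm_apply]
    have hQi : ∀ i, aeval (fun i => (x ∘ σ) i ^ p ^ (ε ∘ σ) i) (Q (Sum.inr i)) =
        (x ∘ σ) i.1 ^ p ^ (ε ∘ σ) i.1 := by
      intro i
      change aeval _ (X i.1) = _
      rw [aeval_X]
    have hQ0 : ∀ b, aeval (fun i => (x ∘ σ) i ^ p ^ (ε ∘ σ) i) (Q b) ≠ 0 := by
      rintro (b | i)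
      · rw [hQb]
        exact hG b
      · rw [hQi]
        exact pow_ne_zero _ i.2
    have hH := fun b => homog (fun i => (x ∘ σ) i ^ p ^ (ε ∘ σ) i) (fun i => yK i ^ p ^ η i) V W
      δ s hVδ hWδ hV' (Q b) (hQs b)
    choose H hHd hHe using hH
    obtain ⟨T, I, hT, hI, M, hFr, hM1, hM2⟩ := hM
      (Option ((B ⊕ {i : Fin N // (x ∘ σ) i ≠ 0}) ⊕ B'))
      (fun o => o.elim (MvPolynomial.map ρ W) (Sum.elim (fun b => MvPolynomial.map ρ (H b))
        fun i => MvPolynomial.C (b' i))) (by
        rintro (_ | (b | i))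
        · change ev p yK e η (MvPolynomial.map ρ W) ≠ 0
          rw [ev_root' p ρ hρ]
          exact hW'
        · change ev p yK e η (MvPolynomial.map ρ (H b)) ≠ 0
          rw [ev_root' p ρ hρ, hHe]
          exact mul_ne_zero (hQ0 b) (pow_ne_zero _ hW')
        · change ev p yK e η (MvPolynomial.C (b' i)) ≠ 0
          rw [ev_C]
          exact (_root_.map_ne_zero _).2 (pow_ne_zero _ (hb' i)))
      (by
        rintro (_ | (b | i))
        · exact (le_trans (Finset.sup_mono (support_map_subset _ _)) hWδ).trans hδD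
        · exact le_trans (Finset.sup_mono (support_map_subset _ _)) (hHd b)
        · change (MvPolynomial.C (b' i) : MvPolynomial (Fin (d + 1)) E).totalDegree ≤ s * δ
          rw [totalDegree_C]
          exact Nat.zero_le _)
    have hMW : IsBr M (aeval (fun i => yK i ^ p ^ η i) W) := by
      have h1 := hM1 none
      change IsBr M (ev p yK e η (MvPolynomial.map ρ W)) at h1
      rw [ev_root' p ρ hρ] at h1
      exact h1
    have hMQ : ∀ b, IsBr M (aeval (fun i => (x ∘ σ) i ^ p ^ (ε ∘ σ) i) (Q b)) := by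
      intro b
      have h1 := hM1 (some (Sum.inl b))
      change IsBr M (ev p yK e η (MvPolynomial.map ρ (H b))) at h1
      rw [ev_root' p ρ hρ, hHe] at h1
      have h2 := h1.mul (hMW.pow s).inv
      rw [mul_assoc, mul_inv_cancel₀ (pow_ne_zero _ hW'), mul_one] at h2
      exact h2
    refine ⟨T, I, hT, hI, M, hFr, fun b => by rw [← hQb]; exact hMQ _, fun i => ?_,
      fun i => hM2 (Sum.inl i), fun i hi => ?_⟩
    · have h1 := hM1 (some (Sum.inr i))
      change IsBr M (ev p yK e η (MvPolynomial.C (b' i))) at h1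
      rw [ev_C, map_pow] at h1
      exact isBr_of_pow hFr (pow_ne_zero _ hp0) h1
    · have h0 : (x ∘ σ) (σ.symm i) ≠ 0 := by
        change x (σ (σ.symm i)) ≠ 0
        rw [Equiv.apply_symm_apply]
        exact hi
      have h1 := hMQ (Sum.inr ⟨σ.symm i, h0⟩)
      rw [hQi] at h1
      have h2 := isBr_of_pow hFr (pow_ne_zero _ hp0) h1
      change IsBr M (x (σ (σ.symm i))) at h2
      rw [Equiv.apply_symm_apply] at h2
      exact h2
  · have hδD : δ ≤ max s δ := le_max_right _ _
    have hD1 : 1 ≤ max s δ := hδ1.trans hδD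
    let yK : Fin N → K := fun i => (x2 i : K)
    have hyKtop : IntermediateField.adjoin L (Set.range yK) = ⊤ :=
      adj_top K2 x2 htop2 x hx htop
    have hRel : Rel p E δ e N (ε ∘ σ) K2 x2 :=
      rel_of_growth' p x2 (ε ∘ σ) htop2 d δ C0 htr2 hδ2 e ρ hρ N (ε ∘ σ) K2 x2 (AlgHom.id E K2)
        (fun i => ⟨i, rfl, rfl⟩) htop2
    have hrel2 : Rel2 p E L (max s δ) e N (ε ∘ σ) K yK :=
      rel_lift p (max s δ) e N (ε ∘ σ) K2 x2 K yK K2.val (fun i => rfl) hfree
        (Rel.mono p E hδD _ _ _ _ hRel)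
    have hM := main2 p k E L c hc hL N (max s δ) hD1 (fun _ => hD) e (ε ∘ σ)
      (Tuple.monotone_sort ε) (fun i => hε (σ i)) K yK hyKtop hrel2
    have hev : ∀ b, ev p yK e (ε ∘ σ) (MvPolynomial.map ρ (rename σ.symm (G b))) =
        aeval (fun i => x i ^ p ^ ε i) (G b) := by
      intro b
      rw [ev_root' p ρ hρ, aeval_rename]
      congr 2
      funext i
      change x (σ (σ.symm i)) ^ p ^ ε (σ (σ.symm i)) = _
      rw [Equiv.apply_symm_apply]
    obtain ⟨T, I, hT, hI, M, hFr, hM1, hM2⟩ := hM (B ⊕ B')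
      (Sum.elim (fun b => MvPolynomial.map ρ (rename σ.symm (G b))) fun i => MvPolynomial.C (b' i)) (by
        rintro (b | i)
        · change ev p yK e (ε ∘ σ) (MvPolynomial.map ρ (rename σ.symm (G b))) ≠ 0
          rw [hev]
          exact hG b
        · change ev p yK e (ε ∘ σ) (MvPolynomial.C (b' i)) ≠ 0
          rw [ev_C]
          exact (_root_.map_ne_zero _).2 (pow_ne_zero _ (hb' i)))
      (by
        rintro (b | i)
        · refine le_trans (Finset.sup_mono (support_map_subset _ _)) ?_
          exact ((totalDegree_rename_le σ.symm (G b)).trans (hdeg b)).trans (le_max_left _ _)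
        · change (MvPolynomial.C (b' i) : MvPolynomial (Fin N) E).totalDegree ≤ max s δ
          rw [totalDegree_C]
          exact Nat.zero_le _)
    refine ⟨T, I, hT, hI, M, hFr, fun b => by rw [← hev]; exact hM1 (Sum.inl b), fun i => ?_,
      fun i => hM2 (Sum.inl i), fun i hi => ?_⟩
    · have h1 := hM1 (Sum.inr i)
      change IsBr M (ev p yK e (ε ∘ σ) (MvPolynomial.C (b' i))) at h1
      rw [ev_C, map_pow] at h1
      exact isBr_of_pow hFr (pow_ne_zero _ hp0) h1
    · have h1 := hM2 (Sum.inr ⟨σ.symm i, by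
        change x (σ (σ.symm i)) ≠ 0
        rw [Equiv.apply_symm_apply]
        exact hi⟩)
      change IsBr M (x (σ (σ.symm i))) at h1
      rw [Equiv.apply_symm_apply] at h1
      exact h1

end main

end Pool.Agent.N762.FP
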