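import Pool.Agent.N762.FP.Step2

/-!
Transcendence degrees of the fields generated by several families.
-/

set_option autoImplicit false
set_option linter.unusedVariables false
set_option linter.unusedSimpArgs false
set_option linter.unusedSectionVars false

universe u

open scoped IntermediateField.algebraAdjoinAdjoin

open Pool.Agent.W558 Pool.Agent.W498.Tor Pool.Agent.W418.LCI Pool.Agent.N98
  Pool.Agent.N762.RC

namespace Pool.Agent.N762.FP

section trd

variable {E L K2 K : Type u} [Field E] [Field L] [Field K2] [Field K] [Algebra E L] [Algebra E K2]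
  [Algebra E K] [Algebra L K] [IsScalarTower E L K]

/-- If `K` is algebraic over the field generated by `L` and `K2`. -/
theorem trdeg_le' (ι : K2 →ₐ[E] K)
    (halg : ∀ z : K, IsAlgebraic (IntermediateField.adjoin L (Set.range ι)) z) :
    Algebra.trdeg L K ≤ Algebra.trdeg E K2 := by
  classical
  obtain ⟨s, hb⟩ := exists_isTranscendenceBasis E K2
  rw [← hb.cardinalMk_eq_trdeg]
  let y : s → K := fun i => ι i
  have hM : ∀ z : K2, IsAlgebraic (IntermediateField.adjoin L (Set.range y)) (ι z) := by
    intro z
    have hz := hb.isAlgebraic.isAlgebraic z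
    have hle : Algebra.adjoin E (Set.range ((↑) : s → K2)) ≤
        ((IntermediateField.adjoin L (Set.range y)).restrictScalars E).toSubalgebra.comap ι := by
      rw [Algebra.adjoin_le_iff]
      rintro _ ⟨i, rfl⟩
      change y i ∈ IntermediateField.adjoin L (Set.range y)
      exact IntermediateField.subset_adjoin L (Set.range y) (Set.mem_range_self i)
    let f : Algebra.adjoin E (Set.range ((↑) : s → K2)) →+*
        IntermediateField.adjoin L (Set.range y) :=
      ((ι : K2 →+* K).comp (algebraMap (Algebra.adjoin E (Set.range ((↑) : s → K2))) K2)).codRestrict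
        (IntermediateField.adjoin L (Set.range y)).toSubring (fun l => hle l.2)
    have hf : Function.Injective f := fun l l' h =>
      Subtype.ext (ι.injective (congrArg Subtype.val h))
    have hfg : (algebraMap (IntermediateField.adjoin L (Set.range y)) K).comp f =
        (ι : K2 →+* K).comp (algebraMap (Algebra.adjoin E (Set.range ((↑) : s → K2))) K2) :=
      RingHom.ext fun l => rfl
    exact alg_map hz f hf (ι : K2 →+* K) hfg
  have halg' : Algebra.IsAlgebraic (Algebra.adjoin L (Set.range y)) K := by
    have h1 : Algebra.IsAlgebraic (IntermediateField.adjoin L (Set.range y)) K := by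
      refine ⟨fun z => ?_⟩
      refine alg_trans (M1 := IntermediateField.adjoin L (Set.range ι)) (S := Set.range ι) ?_ ?_
        (halg z)
      · rintro _ ⟨z, rfl⟩
        exact hM z
      · intro l
        have hle : IntermediateField.adjoin L (Set.range ι) ≤
            (IntermediateField.adjoin (IntermediateField.adjoin L (Set.range y))
              (Set.range ι)).restrictScalars L := by
          refine IntermediateField.adjoin_le_iff.2 ?_
          rintro _ ⟨i, rfl⟩
          change ι i ∈ IntermediateField.adjoin (IntermediateField.adjoin L (Set.range y))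
            (Set.range ι)
          exact IntermediateField.subset_adjoin _ (Set.range ι) (Set.mem_range_self i)
        exact hle l.2
    exact (IsFractionRing.comap_isAlgebraic_iff (A := Algebra.adjoin L (Set.range y))
      (K := IntermediateField.adjoin L (Set.range y)) (C := K)).2 h1
  exact (Algebra.IsAlgebraic.trdeg_le_cardinalMk L (Set.range y)).trans Cardinal.mk_range_le

/-- If `K` is generated over `L` by elements `x`. -/
theorem trdeg_le {τ : Type*} (x : τ → K) (hxt : IntermediateField.adjoin L (Set.range x) = ⊤) :
    Algebra.trdeg L K ≤ Algebra.trdeg E (IntermediateField.adjoin E (Set.range x)) := by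
  refine trdeg_le' (IntermediateField.adjoin E (Set.range x)).val fun z => ?_
  have hz : z ∈ IntermediateField.adjoin L
      (Set.range (IntermediateField.adjoin E (Set.range x)).val) := by
    have hle : IntermediateField.adjoin L (Set.range x) ≤
        IntermediateField.adjoin L (Set.range (IntermediateField.adjoin E (Set.range x)).val) := by
      refine IntermediateField.adjoin.mono L _ _ ?_
      rintro _ ⟨i, rfl⟩
      exact ⟨⟨x i, IntermediateField.subset_adjoin _ _ ⟨i, rfl⟩⟩, rfl⟩
    rw [hxt] at hle
    exact hle trivial
  exact isAlgebraic_algebraMap (⟨z, hz⟩ :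
    IntermediateField.adjoin L (Set.range (IntermediateField.adjoin E (Set.range x)).val))

end trd

section sub

variable {E K : Type u} [Field E] [Field K] [Algebra E K]

lemma adjoin_val (L : IntermediateField E K) {τ : Type*} (x : τ → L) :
    IntermediateField.lift (IntermediateField.adjoin E (Set.range x)) =
      IntermediateField.adjoin E (Set.range fun i => (x i : K)) := by
  rw [IntermediateField.lift_adjoin, ← Set.range_comp]
  rfl

/-- The transcendence degree of a subfield of a subfield. -/
lemma trdeg_val (L : IntermediateField E K) {τ : Type*} (x : τ → L) :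
    Algebra.trdeg E (IntermediateField.adjoin E (Set.range x)) =
      Algebra.trdeg E (IntermediateField.adjoin E (Set.range fun i => (x i : K))) := by
  rw [← adjoin_val]
  exact (IntermediateField.liftAlgEquiv (IntermediateField.adjoin E (Set.range x))).trdeg_eq

/-- The field generated by the first families. -/
abbrev FL (E : Type u) [Field E] {K : Type u} [Field K] [Algebra E K] {m : ℕ} {N : Fin (m + 1) → ℕ}
    (x : (i : Fin (m + 1)) → Fin (N i) → K) :
    IntermediateField E K :=
  IntermediateField.adjoin E (Set.range fun ij : Σ i : Fin m, Fin (N i.castSucc) =>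
    x ij.1.castSucc ij.2)

variable {m : ℕ} {N : Fin (m + 1) → ℕ} (x : (i : Fin (m + 1)) → Fin (N i) → K)

/-- The first families. -/
def xL (i : Fin m) (j : Fin (N i.castSucc)) : FL E x :=
  ⟨x i.castSucc j, IntermediateField.subset_adjoin _ _ ⟨⟨i, j⟩, rfl⟩⟩

lemma xL_top : IntermediateField.adjoin E (Set.range fun ij : Σ i : Fin m, Fin (N i.castSucc) =>
    xL (E := E) x ij.1 ij.2) = ⊤ := by
  apply IntermediateField.lift_injective (FL E x)
  rw [adjoin_val, IntermediateField.lift_top]
  rfl

lemma xl_top (htop : IntermediateField.adjoin E (Set.range fun ij : Σ i, Fin (N i) =>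
    x ij.1 ij.2) = ⊤) :
    IntermediateField.adjoin (FL E x) (Set.range (x (Fin.last m))) = ⊤ := by
  rw [eq_top_iff]
  have h1 : IntermediateField.adjoin E (Set.range fun ij : Σ i, Fin (N i) => x ij.1 ij.2) ≤
      (IntermediateField.adjoin (FL E x) (Set.range (x (Fin.last m)))).restrictScalars E := by
    rw [IntermediateField.adjoin_le_iff]
    rintro _ ⟨⟨i, j⟩, rfl⟩
    change x i j ∈ IntermediateField.adjoin (FL E x) (Set.range (x (Fin.last m)))
    revert j
    refine Fin.lastCases ?_ (fun i => ?_) i
    · intro j
      exact IntermediateField.subset_adjoin _ _ ⟨j, rfl⟩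
    · intro j
      have h2 := (IntermediateField.adjoin (FL E x) (Set.range (x (Fin.last m)))).algebraMap_mem
        (xL (E := E) x i j)
      exact h2
  intro z _
  refine h1 ?_
  rw [htop]
  trivial

end sub

/-- The transcendence degree of the field generated by several families is at most the sum. -/
theorem trdeg_le_sum {E : Type u} [Field E] : ∀ (m : ℕ) (N d : Fin m → ℕ) (K : Type u) [Field K]
    [Algebra E K] (x : (i : Fin m) → Fin (N i) → K),
    IntermediateField.adjoin E (Set.range fun ij : Σ i, Fin (N i) => x ij.1 ij.2) = ⊤ →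
    (∀ i, Algebra.trdeg E (IntermediateField.adjoin E (Set.range (x i))) = d i) →
    Algebra.trdeg E K ≤ ((∑ i, d i : ℕ) : Cardinal) := by
  intro m
  induction m with
  | zero =>
    intro N d K _ _ x htop htr
    have h1 : Algebra.trdeg E K ≤
        Algebra.trdeg E (IntermediateField.adjoin E (Set.range fun ij : Σ i, Fin (N i) =>
          x ij.1 ij.2)) := trdeg_le (E := E) (L := E) _ htop
    have h2 : IsEmpty (Σ i, Fin (N i)) := ⟨fun ij => ij.1.elim0⟩
    rw [Set.range_eq_empty, IntermediateField.adjoin_empty] at h1
    have h3 : Algebra.trdeg E (⊥ : IntermediateField E K) = 0 := by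
      have : Algebra.IsAlgebraic E (⊥ : IntermediateField E K) :=
        Algebra.IsAlgebraic.of_finite E _
      exact trdeg_eq_zero
    rw [h3] at h1
    exact h1.trans (by simp)
  | succ m ih =>
    intro N d K _ _ x htop htr
    have h1 : Algebra.trdeg E (FL E x) + Algebra.trdeg (FL E x) K = Algebra.trdeg E K :=
      trdeg_add_eq E (FL E x)
    have h2 : Algebra.trdeg E (FL E x) ≤ ((∑ i : Fin m, d i.castSucc : ℕ) : Cardinal) :=
      ih (fun i => N i.castSucc) (fun i => d i.castSucc) (FL E x) (xL x) (xL_top x) fun i => by
        rw [trdeg_val]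
        exact htr i.castSucc
    have h3 : Algebra.trdeg (FL E x) K ≤ (d (Fin.last m) : Cardinal) := by
      rw [← htr (Fin.last m)]
      exact trdeg_le (E := E) (L := FL E x) _ (xl_top x htop)
    rw [← h1, Fin.sum_univ_castSucc, Nat.cast_add]
    exact add_le_add h2 h3

/-- The transcendence degrees in the induction. -/
theorem trdeg_step {E : Type u} [Field E] {m : ℕ} {N : Fin (m + 1) → ℕ} (d : Fin (m + 1) → ℕ)
    {K : Type u} [Field K] [Algebra E K] (x : (i : Fin (m + 1)) → Fin (N i) → K)
    (htop : IntermediateField.adjoin E (Set.range fun ij : Σ i, Fin (N i) => x ij.1 ij.2) = ⊤)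
    (htr : ∀ i, Algebra.trdeg E (IntermediateField.adjoin E (Set.range (x i))) = d i)
    (hsum : Algebra.trdeg E K = ((∑ i, d i : ℕ) : Cardinal)) :
    Algebra.trdeg E (FL E x) = ((∑ i : Fin m, d i.castSucc : ℕ) : Cardinal) ∧
      Algebra.trdeg (FL E x) K = d (Fin.last m) := by
  have h1 : Algebra.trdeg E (FL E x) + Algebra.trdeg (FL E x) K = Algebra.trdeg E K :=
    trdeg_add_eq E (FL E x)
  have h2 : Algebra.trdeg E (FL E x) ≤ ((∑ i : Fin m, d i.castSucc : ℕ) : Cardinal) :=
    trdeg_le_sum m (fun i => N i.castSucc) (fun i => d i.castSucc) (FL E x) (xL x) (xL_top x)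
      fun i => by
        rw [trdeg_val]
        exact htr i.castSucc
  have h3 : Algebra.trdeg (FL E x) K ≤ (d (Fin.last m) : Cardinal) := by
    rw [← htr (Fin.last m)]
    exact trdeg_le (E := E) (L := FL E x) _ (xl_top x htop)
  obtain ⟨a, ha⟩ := Cardinal.lt_aleph0.1 (h2.trans_lt Cardinal.natCast_lt_aleph0)
  obtain ⟨b, hb⟩ := Cardinal.lt_aleph0.1 (h3.trans_lt Cardinal.natCast_lt_aleph0)
  rw [ha, hb, hsum, Fin.sum_univ_castSucc] at h1
  rw [ha] at h2
  rw [hb] at h3
  rw [ha, hb]
  norm_cast at h1 h2 h3 ⊢
  omega

end Pool.Agent.N762.FP
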